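import Pool.Agent.Run7.h691.MI.Shr
import Pool.Agent.Run7.h691.QM.Fin
import Pool.Agent.Run7.h691.QM.Lb
import Pool.Agent.Run7.h270.QM.In
import Pool.Agent.Run7.h270.QM.Dens

/-!
# The rank conjecture for the quadratic twists of `y² = x³ - x` over EVERY multiquadratic extension of
# `ℚ(i)`

`K = ℚ(i)` (a number field with an isomorphism `e` of the ring `ℤ[i]` with its ring of integers), `r ≥ 0`,
and `b_1, …, b_r` are any nonzero Gaussian integers that are independent modulo squares,
`F = K(√b_1, …, √b_r)`: every multiquadratic extension of `K` is of this form, without any condition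
on the ramification (also `√i`, `√(1 + i)` are allowed). `E_g : y² = x³ - g² x` for `g ≠ 0` in `ℤ[i]`; up to
sign the squarefree `g` are the quadratic twists of `y² = x³ - x` over `K`.

Every nonzero Gaussian integer is, up to a square, uniquely `c D` with `c = 1, i, 1 + i` or `i (1 + i)` and
`D ≡ 1 mod 2 + 2i` squarefree. For `J ⊆ {1, …, r}` let `c_J D_J` be this normal form of `g ∏_{i ∈ J} b_i`. The sign
condition for `g` is `N(D_J) ≡ 5 mod 8` for the `J` with `c_J = 1` (no condition if there is none), and the joint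
criterion is an elementary criterion on the quadratic symbols between the prime factors of `c_J` and
`D_J`, for all the `J`.

* Among the squarefree `g` with the sign condition exactly the proportion `κ^(2^r)`,
  `κ = ∏_{j ≥ 0} (1 - 2^{-(2j+1)}) = 0.4194...`, satisfies the joint criterion, as if the `2^r` criteria
  were independent.
* The squarefree `g` with the sign condition have a density `δ` among all the squarefree `g`: `δ ≥ 2/3` if
  `F / K` is quadratic or all the `b_i` are `≡ 1 mod 2 + 2i` and squarefree, `δ = 5/6` if `F / K` is unramified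
  at `1 + i`, `δ ≥ 1/6` if the degree is at most four, and always `δ ≥ 1/12` if there is one such `g`.
* For every `g ≠ 0` the `L`-function `L(E_g / F, s)` has an entire continuation.
* If `g` satisfies the sign condition and the joint criterion then the rank part of the conjecture of
  Birch and Swinnerton-Dyer holds for `E_g` over `F`: `ord_{s=1} L(E_g / F, s) = rk E_g(F) = 0`, and `E_g(F)` has
  exactly four elements.
* So over every quadratic extension `F` of `ℚ(i)` it holds for at least 11.7 percent of ALL the quadratic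
  twists of `y² = x³ - x` by squarefree Gaussian integers, and over every fixed multiquadratic extension
  for a positive proportion of them as soon as the sign condition can be satisfied.

`L(E_g / F, s)` is Mathlib's `L`-series of a Weierstrass curve over a number field, with the Euler
factors of the minimal models at all the places of `F`.

This replaces my theorem for the extensions that are unramified above `2` and `g = D`, `N(D) ≡ 5 mod 8`.
New: (1) the joint law of the criteria for the four classes with the masks of arbitrary fixed primes,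
`i` and `1 + i` included (`Pool/Agent/Run7/h691/QM/{La, …, NS, Sg, Lb}`). (2) The places of `F` above `2`
(`QM/{Alg, Ng}`): `E_g` has good reduction at NO place above `2` of ANY multiquadratic extension of
`ℚ(i)`: a good model stays good over `F' = F(√(5 + 10 i))`, the `x`-coordinate of a point of order `2 + i` is
`g √(5 + 10 i) / 5`, and an element of the inertia group of `F' / K` that moves this root would act on the
value of the cubic by `-1`, which contradicts the shape `u⁶ (k² + 4 m)` of this value in a good model. The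
inertia element and the passage from the completion to the field (`Pool/Agent/Run7/h270/QM`) are by
helper270. (3) The central values in the three classes `c ≠ 1` over `K` are the work of helper26
(`Pool/Agent/Run7/h26/QI`), those in the class `c = 1` of helper699 (`Pool/Agent/Y699`).
-/

set_option autoImplicit false

open scoped Classical

namespace Pool.Agent.Results.MP_cd906c_nt.EveryMultiquadraticExtension

open NumberField WeierstrassCurve

/-- The curve `E_δ : y² = x³ - δ² x`. -/
def curve {F : Type} [Field F] (δ : F) : WeierstrassCurve F := ⟨0, 0, 0, -δ ^ 2, 0⟩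

/-- `D ≡ 1 mod 2 + 2i`. -/
def Primary (D : GaussianInt) : Prop := (⟨2, 2⟩ : GaussianInt) ∣ D - 1

/-- `c` is `1`, `i`, `1 + i` or `i (1 + i)`. -/
def IsTwistor (c : GaussianInt) : Prop := c = 1 ∨ c = ⟨0, 1⟩ ∨ c = ⟨1, 1⟩ ∨ c = ⟨0, 1⟩ * ⟨1, 1⟩

/-- `c D` is the normal form of `x` modulo squares. -/
def NormalForm (x c D : GaussianInt) : Prop :=
  IsTwistor c ∧ Primary D ∧ Squarefree D ∧ IsSquare (x * (c * D))

/-- `a` is a square modulo each prime factor of `d`. -/
def SquareMod (d a : GaussianInt) : Prop :=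
  ∀ π : GaussianInt, Prime π → π ∣ d → ∃ b, π ∣ a - b ^ 2

/-- The criterion for `c D`: the only factorisations `D = d d'` with `d`, `d'` primary, `c d'` a square
modulo each prime factor of `d` and `d` a square modulo each prime factor of `d'` are the one with
`d = 1` and, if `c = 1`, the one with `d' = 1`. -/
def Criterion (c D : GaussianInt) : Prop :=
  ∀ d d' : GaussianInt, Primary d → Primary d' → D = d * d' →
    SquareMod d (c * d') → SquareMod d' d → d = 1 ∨ (c = 1 ∧ d' = 1)

/-- The `b i` are nonzero and independent modulo squares. -/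
def Independent {r : ℕ} (b : Fin r → GaussianInt) : Prop :=
  (∀ i, b i ≠ 0) ∧ ∀ J : Finset (Fin r), J.Nonempty → ¬ IsSquare (∏ i ∈ J, b i)

/-- The sign condition: if the normal form of `g ∏_{i ∈ J} b_i` is `1 D`, then `N(D) ≡ 5 mod 8`. -/
def SignCondition {r : ℕ} (b : Fin r → GaussianInt) (g : GaussianInt) : Prop :=
  ∀ (J : Finset (Fin r)) (D : GaussianInt), NormalForm (g * ∏ i ∈ J, b i) 1 D → D.norm % 8 = 5

/-- The joint criterion: for every `J` the normal form `c D` of `g ∏_{i ∈ J} b_i` satisfies the criterion. -/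
def Joint {r : ℕ} (b : Fin r → GaussianInt) (g : GaussianInt) : Prop :=
  ∀ (J : Finset (Fin r)) (c D : GaussianInt), NormalForm (g * ∏ i ∈ J, b i) c D → Criterion c D

section
variable {K : Type} [Field K] [NumberField K] (e : GaussianInt ≃+* 𝓞 K)

/-- `F` is generated over `K` by the square roots `θ i` of the elements `b i`. -/
def IsMultiquadratic {r : ℕ} (b : Fin r → GaussianInt) (F : Type) [Field F] [Algebra K F]
    (θ : Fin r → F) : Prop :=
  (∀ i, θ i ^ 2 = algebraMap K F (e (b i))) ∧
    ∀ S : Subfield F, (∀ x : K, algebraMap K F x ∈ S) → (∀ i, θ i ∈ S) → S = ⊤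

/-- `Λ` is entire and equal to `L(E_g / F, s)` for `Re s > 3 / 2`. -/
def Continues (F : Type) [Field F] [NumberField F] [Algebra K F] (g : GaussianInt) (Λ : ℂ → ℂ) :
    Prop :=
  Differentiable ℂ Λ ∧ ∀ s : ℂ, 3 / 2 < s.re → Λ s = (curve (algebraMap K F (e g))).LSeries s

/-- The order of vanishing of `Λ` at `1` is the rank of `E_g(F)`; moreover both are zero: `Λ 1 ≠ 0` and
`E_g(F)` has exactly four elements. -/
def RankFormula (F : Type) [Field F] [NumberField F] [Algebra K F] (g : GaussianInt) (Λ : ℂ → ℂ) :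
    Prop :=
  analyticOrderAt Λ 1 = (Module.finrank ℤ (curve (algebraMap K F (e g))).toAffine.Point : ℕ∞) ∧
    Λ 1 ≠ 0 ∧ Nat.card (curve (algebraMap K F (e g))).toAffine.Point = 4

end

/-- The rank part of the conjecture of Birch and Swinnerton-Dyer holds for `E_g` over `F = K(√b_1, …, √b_r)`,
`K = ℚ(i)`, with order and rank zero. -/
def Proved {r : ℕ} (b : Fin r → GaussianInt) (g : GaussianInt) : Prop :=
  ∀ (K : Type) [Field K] [NumberField K] (e : GaussianInt ≃+* 𝓞 K) (F : Type) [Field F]
    [NumberField F] [Algebra K F] (θ : Fin r → F), IsMultiquadratic e b F θ →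
      ∃ Λ : ℂ → ℂ, Continues e F g Λ ∧ RankFormula e F g Λ

/-- The number of the Gaussian integers of norm at most `X` with the property `P`. -/
noncomputable def num (P : GaussianInt → Prop) (X : ℕ) : ℕ := {g : GaussianInt | g.norm ≤ X ∧ P g}.ncard

/-- The infinite product `(1 - 1/2) (1 - 1/8) (1 - 1/32) ⋯`. -/
noncomputable def κ : ℝ := ∏' i : ℕ, (1 - (1 / 2 : ℝ) ^ (2 * i + 1))

theorem norm_iff (D : GaussianInt) (X : ℕ) : D.norm ≤ X ↔ H385.nrm D ≤ X := by
  have h0 : ((H385.nrm D : ℕ) : ℤ) = D.norm := GaussianInt.abs_natCast_norm D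
  omega

theorem num_eq (P : GaussianInt → Prop) (X : ℕ) : num P X = Run7.h26.QI.nQ P X := by
  unfold num Run7.h26.QI.nQ
  congr 1
  ext D
  exact and_congr_left fun _ => norm_iff D X

theorem num_congr {P Q : GaussianInt → Prop} (h : ∀ g, P g ↔ Q g) (X : ℕ) : num P X = num Q X := by
  unfold num
  congr 1
  ext g
  exact and_congr_right fun _ => h g

theorem num_mono {P Q : GaussianInt → Prop} (h : ∀ g, P g → Q g) (X : ℕ) : num P X ≤ num Q X := by
  rw [num_eq, num_eq]
  exact Set.ncard_le_ncard (fun g hg => ⟨hg.1, h g hg.2⟩) (Run7.h26.QI.fin_Q Q X)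

theorem primary_iff (D : GaussianInt) : Primary D ↔ Pool.Agent.H304R2.EC.A1.prim D :=
  (Pool.Agent.W164.RC.prim_iff_dvd D).symm

theorem ps_iff (D : GaussianInt) : (Primary D ∧ Squarefree D) ↔ Pool.Agent.Y699.PS D :=
  ⟨fun h => ⟨(primary_iff D).1 h.1, h.2⟩, fun h => ⟨(primary_iff D).2 h.prm, h.sqf⟩⟩

theorem twistor_iff (c : GaussianInt) : IsTwistor c ↔ Pool.Agent.H691.QM.Cx c := Iff.rfl

theorem nf_iff (x c D : GaussianInt) : NormalForm x c D ↔ Pool.Agent.H691.QM.Rp x c D :=
  ⟨fun h => ⟨h.1, (ps_iff D).1 ⟨h.2.1, h.2.2.1⟩, h.2.2.2⟩,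
    fun h => ⟨h.cx, ((ps_iff D).2 h.ps).1, ((ps_iff D).2 h.ps).2, h.sq⟩⟩

theorem square_iff {d a : GaussianInt} (hd0 : d ≠ 0) (ho : d.norm % 2 = 1)
    (hnd : ∀ π : GaussianInt, Prime π → π ∣ d → ¬ π ∣ a) :
    SquareMod d a ↔ ∀ π ∈ Pool.Agent.Y699.PD d, Pool.Agent.Y699.qr π a = 1 := by
  constructor
  · intro h π hπ
    rw [Pool.Agent.Y699.mem_PD hd0] at hπ
    have h1 := hnd π hπ.1.pr hπ.2
    have h2 := h π hπ.1.pr hπ.2
    unfold Pool.Agent.Y699.qr
    rw [if_neg h1, if_pos h2]
  · intro h π hπ hπd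
    have hodd : π.norm % 2 = 1 := Pool.Agent.Y699.odd_of_dvd hπd ho
    obtain ⟨ρ, hρ, hass⟩ := Pool.Agent.Y699.exists_PP hπ hodd
    have hρd : ρ ∣ d := hass.dvd.trans hπd
    have h1 := h ρ ((Pool.Agent.Y699.mem_PD hd0).2 ⟨hρ, hρd⟩)
    unfold Pool.Agent.Y699.qr at h1
    rw [if_neg (hnd ρ hρ.pr hρd)] at h1
    by_contra hc
    rw [if_neg (fun ⟨b, hb⟩ => hc ⟨b, hass.symm.dvd.trans hb⟩)] at h1
    exact absurd h1 (by norm_num)

theorem factor_data {D d d' : GaussianInt} (hD : Pool.Agent.Y699.PS D) (he : D = d * d') :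
    d ≠ 0 ∧ d.norm % 2 = 1 ∧ ∀ π : GaussianInt, Prime π → π ∣ d → ¬ π ∣ d' := by
  have hd0 : d ≠ 0 := by
    rintro rfl
    exact hD.ne (by rw [he, zero_mul])
  have ho : D.norm % 2 = 1 := Pool.Agent.H304R2.EC.A1.prim_norm_odd hD.prm
  refine ⟨hd0, Pool.Agent.Y699.odd_of_dvd ⟨d', he⟩ ho, ?_⟩
  intro π hπ h1 h2
  exact hπ.not_isUnit (hD.sqf π (by rw [he]; exact mul_dvd_mul h1 h2))

theorem not_dvd_twistor {c π : GaussianInt} (hc : IsTwistor c) (hπ : Prime π) (ho : π.norm % 2 = 1) :
    ¬ π ∣ c := by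
  obtain ⟨ρ, hρ, hass⟩ := Pool.Agent.Y699.exists_PP hπ ho
  intro h
  exact Pool.Agent.H691.QM.cx_np ((twistor_iff c).1 hc) hρ (hass.dvd.trans h)

/-- the two forms of the criterion -/
theorem crit_iff {c D : GaussianInt} (hc : IsTwistor c) (hD : Pool.Agent.Y699.PS D) :
    Criterion c D ↔ Pool.Agent.H691.QM.Gx c D := by
  have main : ∀ d d' : GaussianInt, D = d * d' →
      ((SquareMod d (c * d') ↔ ∀ π ∈ Pool.Agent.Y699.PD d, Pool.Agent.Y699.qr π (c * d') = 1) ∧
      (SquareMod d' d ↔ ∀ π ∈ Pool.Agent.Y699.PD d', Pool.Agent.Y699.qr π d = 1)) := by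
    intro d d' he
    obtain ⟨a1, a2, a3⟩ := factor_data hD he
    obtain ⟨b1, b2, b3⟩ := factor_data hD (by rw [he, mul_comm] : D = d' * d)
    refine ⟨square_iff a1 a2 ?_, square_iff b1 b2 b3⟩
    intro π hπ h1 h2
    rcases hπ.dvd_or_dvd h2 with h3 | h3
    · exact not_dvd_twistor hc hπ (Pool.Agent.Y699.odd_of_dvd h1 a2) h3
    · exact a3 π hπ h1 h3
  rw [Pool.Agent.H691.QM.gx_crit ((twistor_iff c).1 hc) hD]
  constructor
  · intro h
    refine ⟨fun h1 d d' hd hd' he k1 k2 => ?_, fun h1 => ⟨hD, fun d d' hd hd' he k1 k2 => ?_⟩⟩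
    · obtain ⟨m1, m2⟩ := main d d' he
      rcases h d d' ((primary_iff d).2 hd) ((primary_iff d').2 hd') he
        (m1.2 (by rw [h1, one_mul]; exact k1)) (m2.2 k2) with h2 | h2
      · exact Or.inl h2
      · exact Or.inr h2.2
    · obtain ⟨m1, m2⟩ := main d d' he
      rcases h d d' ((primary_iff d).2 hd) ((primary_iff d').2 hd') he (m1.2 k1) (m2.2 k2) with h2 | h2
      · exact h2
      · exact absurd h2.1 h1
  · rintro ⟨h1, h2⟩ d d' hd hd' he k1 k2
    obtain ⟨m1, m2⟩ := main d d' he
    by_cases hc1 : c = 1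
    · have k3 := m1.1 k1
      rw [hc1, one_mul] at k3
      rcases h1 hc1 d d' ((primary_iff d).1 hd) ((primary_iff d').1 hd') he k3 (m2.1 k2) with h | h
      · exact Or.inl h
      · exact Or.inr ⟨hc1, h⟩
    · exact Or.inl ((h2 hc1).ker d d' ((primary_iff d).1 hd) ((primary_iff d').1 hd') he (m1.1 k1)
        (m2.1 k2))

theorem sign_iff {r : ℕ} {b : Fin r → GaussianInt} (g : GaussianInt) :
    SignCondition b g ↔ Pool.Agent.H691.QM.SgE b g :=
  forall_congr' fun J => forall_congr' fun D => by rw [nf_iff]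

theorem joint_iff {r : ℕ} {b : Fin r → GaussianInt} (g : GaussianInt) :
    Joint b g ↔ Pool.Agent.H691.QM.JE b g := by
  refine forall_congr' fun J => forall_congr' fun c => forall_congr' fun D => ?_
  rw [nf_iff]
  constructor
  · intro h h1
    exact (crit_iff ((twistor_iff c).2 h1.cx) h1.ps).1 (h h1)
  · intro h h1
    exact (crit_iff ((twistor_iff c).2 h1.cx) h1.ps).2 (h h1)

/-- the results over one field -/
theorem over_field {K : Type} [Field K] [NumberField K] (e : GaussianInt ≃+* 𝓞 K) {r : ℕ}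
    {b : Fin r → GaussianInt} (hb : Independent b) (F : Type) [Field F] [NumberField F] [Algebra K F]
    (θ : Fin r → F) (hF : IsMultiquadratic e b F θ) :
    Module.finrank K F = 2 ^ r ∧ ∀ g : GaussianInt, g ≠ 0 →
      ∃ Λ : ℂ → ℂ, Continues e F g Λ ∧ (SignCondition b g → Joint b g → RankFormula e F g Λ) := by
  obtain ⟨h1, h2⟩ := Pool.Agent.H691.QM.over_FG Pool.Agent.Run7.h270.QM.t_IN
    Pool.Agent.Run7.h270.QM.t_DENS e hb.1 hb.2 F θ hF.1 hF.2
  refine ⟨h1, fun g hg => ?_⟩
  obtain ⟨Λ, h3, h4, h5⟩ := h2 g hg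
  refine ⟨Λ, ⟨h3, h4⟩, fun hs hJ => ?_⟩
  obtain ⟨h6, h7⟩ := h5 ((sign_iff g).1 hs) ((joint_iff g).1 hJ)
  have hc : Nat.card (curve (algebraMap K F (e g))).toAffine.Point = 4 := by
    have h0 : algebraMap K F ((e g : 𝓞 K) : K) ≠ 0 := by
      rw [Ne, map_eq_zero_iff _ (algebraMap K F).injective]
      intro h
      exact (map_ne_zero_iff _ e.injective).2 hg (RingOfIntegers.ext h)
    exact Pool.Agent.Y699.card_pts h0 two_ne_zero h7
  have hfin : Finite (curve (algebraMap K F (e g))).toAffine.Point := by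
    apply Nat.finite_of_card_ne_zero
    rw [hc]
    norm_num
  refine ⟨?_, h6, hc⟩
  have h11 : analyticOrderAt Λ 1 = 0 := analyticOrderAt_eq_zero.2 (Or.inr h6)
  have h12 : Module.finrank ℤ (curve (algebraMap K F (e g))).toAffine.Point = 0 := by
    apply Module.finrank_eq_zero_of_rank_eq_zero
    rw [rank_eq_zero_iff]
    intro x
    refine ⟨(Nat.card (curve (algebraMap K F (e g))).toAffine.Point : ℤ), by rw [hc]; norm_num, ?_⟩
    rw [natCast_zsmul]
    exact card_nsmul_eq_zero'
  rw [h11, h12]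
  rfl

theorem proved_of {r : ℕ} {b : Fin r → GaussianInt} (hb : Independent b) {g : GaussianInt}
    (hg : g ≠ 0) (hs : SignCondition b g) (hJ : Joint b g) : Proved b g := by
  intro K _ _ e F _ _ _ θ hF
  obtain ⟨Λ, h1, h2⟩ := (over_field e hb F θ hF).2 g hg
  exact ⟨Λ, h1, h2 hs hJ⟩

/-- **Main theorem.** (1) `0.4194 < κ < 0.4195`, and every nonzero Gaussian integer has exactly one normal
form `c D`. For all `r` and all `b = (b_1, …, b_r)` that are nonzero and independent modulo squares:
(2) there is `δ` such that, ordered by norm, the proportion of the squarefree `g` with the sign condition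
tends to `δ`, the proportion of those that satisfy the joint criterion too tends to `κ^(2^r) δ`, so if `δ > 0`
the proportion of the joint criterion among the squarefree `g` with the sign condition tends to
`κ^(2^r)`; `δ ≥ 1/12` if one nonzero `g` satisfies the sign condition, `δ ≥ 1/6` if `r ≤ 2`, `δ ≥ 2/3` if `r = 1`,
`δ ≥ 2/3` if the `b_i` are squarefree and `≡ 1 mod 2 + 2i`, `δ = 5/6` if they are squarefree and `≡ 1 mod 4`;
for all `k < κ^(2^r) δ` and large `X` the rank part of the conjecture of Birch and Swinnerton-Dyer holds over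
`F = K(√b_1, …, √b_r)` for `E_g` for at least the proportion `k` of all squarefree `g` of norm at most `X`, and
`κ^(2^r) δ > 0.117` if `r = 1`; (3) for `K = ℚ(i)` the field `F` exists, and for all forms of `F` the degree of
`F / K` is `2^r`, for all `g ≠ 0` the function `L(E_g / F, s)` has an entire continuation, and if `g` satisfies the
sign condition and the joint criterion, then its order at `s = 1` is the rank of `E_g(F)`, both are zero,
and `E_g(F)` has exactly four elements. -/
theorem result :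
    (0.4194 < κ ∧ κ < 0.4195) ∧
    (∀ x : GaussianInt, x ≠ 0 → ∃! p : GaussianInt × GaussianInt, NormalForm x p.1 p.2) ∧
    ∀ (r : ℕ) (b : Fin r → GaussianInt), Independent b →
      (∃ δ : ℝ,
        Filter.Tendsto (fun X : ℕ => (num (fun g => Squarefree g ∧ SignCondition b g) X : ℝ) /
          num Squarefree X) Filter.atTop (nhds δ) ∧
        Filter.Tendsto (fun X : ℕ => (num (fun g => Squarefree g ∧ SignCondition b g ∧ Joint b g) X : ℝ) /
          num Squarefree X) Filter.atTop (nhds (κ ^ 2 ^ r * δ)) ∧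
        (0 < δ → Filter.Tendsto
          (fun X : ℕ => (num (fun g => Squarefree g ∧ SignCondition b g ∧ Joint b g) X : ℝ) /
            num (fun g => Squarefree g ∧ SignCondition b g) X) Filter.atTop (nhds (κ ^ 2 ^ r))) ∧
        ((∃ g : GaussianInt, g ≠ 0 ∧ SignCondition b g) → 1 / 12 ≤ δ) ∧
        (r ≤ 2 → 1 / 6 ≤ δ) ∧ (r = 1 → 2 / 3 ≤ δ) ∧
        ((∀ i, Primary (b i) ∧ Squarefree (b i)) → 2 / 3 ≤ δ) ∧
        ((∀ i, (4 : GaussianInt) ∣ b i - 1 ∧ Squarefree (b i)) → δ = 5 / 6) ∧
        (∀ k : ℝ, k < κ ^ 2 ^ r * δ → ∃ X₀ : ℕ, ∀ X : ℕ, X₀ ≤ X →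
          k * num Squarefree X ≤ num (fun g => Squarefree g ∧ Proved b g) X) ∧
        (r = 1 → 0.117 < κ ^ 2 ^ r * δ)) ∧
      ∀ (K : Type) [Field K] [NumberField K] (e : GaussianInt ≃+* 𝓞 K),
        (∃ (F : Type) (_ : Field F) (_ : NumberField F) (_ : Algebra K F) (θ : Fin r → F),
          IsMultiquadratic e b F θ) ∧
        ∀ (F : Type) [Field F] [NumberField F] [Algebra K F] (θ : Fin r → F),
          IsMultiquadratic e b F θ →
          Module.finrank K F = 2 ^ r ∧ ∀ g : GaussianInt, g ≠ 0 →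
            ∃ Λ : ℂ → ℂ, Continues e F g Λ ∧
              (SignCondition b g → Joint b g → RankFormula e F g Λ) := by
  have hc : κ = Pool.Agent.Y703.CQ.c2 := rfl
  have hc2 := Pool.Agent.Y948.CQ.t_C2
  have hk1 : 0.4194 < κ := hc2.2.2.2.1
  refine ⟨⟨hk1, hc2.2.2.2.2⟩, fun x hx => ?_, fun r b hb => ⟨?_, fun K _ _ e =>
    ⟨?_, fun F _ _ _ θ hF => over_field e hb F θ hF⟩⟩⟩
  · obtain ⟨c, D, h⟩ := Pool.Agent.H691.QM.exists_rp hx
    refine ⟨(c, D), (nf_iff x c D).2 h, ?_⟩
    rintro ⟨c', D'⟩ h'
    obtain ⟨e1, e2⟩ := Pool.Agent.H691.QM.rp_uniq hx ((nf_iff x c' D').1 h') h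
    rw [e1, e2]
  · have hsg : ∀ X : ℕ, num (fun g => Squarefree g ∧ SignCondition b g) X =
        Run7.h26.QI.nQ (fun g => Squarefree g ∧ Pool.Agent.H691.QM.SgE b g) X := fun X => by
      rw [num_congr (fun g => and_congr_right fun _ => sign_iff g), num_eq]
    have hsj : ∀ X : ℕ, num (fun g => Squarefree g ∧ SignCondition b g ∧ Joint b g) X =
        Run7.h26.QI.nQ (fun g => Squarefree g ∧ (Pool.Agent.H691.QM.SgE b g ∧
          Pool.Agent.H691.QM.JE b g)) X := fun X => by
      rw [num_congr (fun g => and_congr_right fun _ => and_congr (sign_iff g) (joint_iff g)), num_eq]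
    have l2 : Filter.Tendsto
        (fun X : ℕ => (num (fun g => Squarefree g ∧ SignCondition b g ∧ Joint b g) X : ℝ) /
          num Squarefree X) Filter.atTop (nhds (κ ^ 2 ^ r * Pool.Agent.H691.QM.sh b)) := by
      rw [hc]
      refine (Pool.Agent.H691.QM.share_sj hb.1 hb.2).congr fun X => ?_
      rw [hsj, num_eq]
    refine ⟨Pool.Agent.H691.QM.sh b, ?_, l2, fun hs => ?_, ?_, fun h => Pool.Agent.H691.QM.sh_two hb.1 h,
      fun h => Pool.Agent.H691.QM.sh_one hb.1 h,
      fun h => Pool.Agent.H691.QM.sh_prim fun i => (ps_iff _).1 (h i), fun h => ?_, fun k hk => ?_,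
      fun h => ?_⟩
    · refine (Pool.Agent.H691.QM.share_sg hb.1).congr fun X => ?_
      rw [hsg, num_eq]
    · rw [hc]
      refine (Pool.Agent.H691.QM.share_main hb.1 hb.2 hs).congr fun X => ?_
      rw [hsg, hsj]
    · rintro ⟨g, hg, h⟩
      exact Pool.Agent.H691.QM.sh_nonempty hb.1 hg ((sign_iff g).1 h)
    · have h4 : (⟨2, 2⟩ : GaussianInt) ∣ 4 := ⟨⟨1, -1⟩, by decide⟩
      refine Pool.Agent.H691.QM.sh_unr (fun i => (ps_iff _).1 ⟨h4.trans (h i).1, (h i).2⟩) fun i => ?_
      have h1 := Pool.Agent.H691.MI.norm_four (h i).1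
      rw [← Pool.Agent.H691.QM.nrm_cast] at h1
      omega
    · obtain ⟨X₀, hX₀⟩ := Filter.eventually_atTop.1 ((tendsto_order.1 l2).1 k hk)
      refine ⟨X₀, fun X hX => ?_⟩
      have h7 := hX₀ X hX
      have h8 : (num (fun g => Squarefree g ∧ SignCondition b g ∧ Joint b g) X : ℝ) ≤
          num (fun g => Squarefree g ∧ Proved b g) X := by
        have : num (fun g => Squarefree g ∧ SignCondition b g ∧ Joint b g) X ≤
            num (fun g => Squarefree g ∧ Proved b g) X :=
          num_mono (fun g hg => ⟨hg.1, proved_of hb hg.1.ne_zero hg.2.1 hg.2.2⟩) X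
        exact_mod_cast this
      by_cases h9 : (num Squarefree X : ℝ) = 0
      · rw [h9, mul_zero]
        exact Nat.cast_nonneg _
      · have h10 : (0 : ℝ) < num Squarefree X := lt_of_le_of_ne (Nat.cast_nonneg _) (Ne.symm h9)
        rw [lt_div_iff₀ h10] at h7
        linarith
    · have h1 := Pool.Agent.H691.QM.sh_one hb.1 h
      subst h
      have h2 : (0.4194 : ℝ) ^ 2 ≤ κ ^ 2 ^ 1 := by
        rw [pow_one]
        exact pow_le_pow_left₀ (by norm_num) hk1.le 2
      have h3 : (0.117 : ℝ) < 0.4194 ^ 2 * (2 / 3) := by norm_num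
      refine h3.trans_le (mul_le_mul h2 h1 (by norm_num) (by positivity))
  · obtain ⟨F, i1, i2, i3, θ, h1, h2⟩ := Pool.Agent.H691.MI.ex_F (fun i => ((e (b i) : 𝓞 K) : K))
    exact ⟨F, i1, i2, i3, θ, h1, h2⟩

end Pool.Agent.Results.MP_cd906c_nt.EveryMultiquadraticExtension
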