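import Pool.Agent.Run7.h691.MI.FinF
import Pool.Agent.Run7.h691.MI.Shr

/-!
# The rank conjecture over EVERY multiquadratic extension of `ℚ(i)` that is unramified above `2`:
# the exact proportion of the quadratic twists `y² = x³ - D² x`

`K = ℚ(i)` (a number field with an isomorphism `e` of the ring `ℤ[i]` with its ring of integers), `r ≥ 0`,
and `b_1, …, b_r` are any fixed squarefree Gaussian integers that are congruent to `1` modulo `4` and
independent modulo squares, `F = K(√b_1, …, √b_r)`, a field of degree `2^r` over `K`.  (These are all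
the multiquadratic extensions of `K` that are unramified at `1 + i`; this remark is not formalized.)

The class is the set of ALL squarefree `D ≡ 1 mod 2 + 2i` with `N(D) ≡ 5 mod 8`; it contains one of `D`, `-D`
for one sixth of all squarefree Gaussian integers, and `E_D : y² = x³ - D² x`.  For `D` in the class and
`J ⊆ {1, …, r}` let `D_J` be the squarefree part of `D ∏_{i ∈ J} b_i`, normalized to be in the class.  The
joint criterion says that all the `2^r` numbers `D_J` satisfy an elementary criterion (a certain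
graph on the prime factors of `D_J` has an odd number of spanning trees).

* The joint criterion holds for exactly the proportion `c^(2^r)` of the class,
  `c = ∏_{j ≥ 0} (1 - 2^{-(2j+1)}) = 0.4194...`, as if the `2^r` criteria were independent.
* For every squarefree `D ≡ 1 mod 2 + 2i` the `L`-function `L(E_D / F, s)` has an entire continuation.
* If `D` in the class satisfies the joint criterion then the rank part of the conjecture of Birch and
  Swinnerton-Dyer holds for `E_D` over `F`: `ord_{s=1} L(E_D / F, s) = rk E_D(F) = 0`, and `E_D(F)` has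
  exactly four elements.
* So for every such field `F`, of arbitrarily large degree, and all `κ < c^(2^r) / 6` the rank part of the
  conjecture holds over `F` for at least the proportion `κ` of ALL the quadratic twists of `y² = x³ - x`
  by squarefree Gaussian integers.

`L(E_D / F, s)` is Mathlib's `L`-series of a Weierstrass curve over a number field, with the Euler
factors of the minimal models at all the places of `F`.

Proof.  The joint law of the criteria (`Pool/Agent/Run7/h691/GJ`, on top of my project GZ for one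
twist): the large sieve for the quadratic symbols of `ℤ[i]` makes the symbols between the medium primes of
`D` equidistributed, the masks of the fixed primes are separated by linear algebra, and the number
of the solutions is an average over a linear space of symmetric matrices.  The `L`-functions over the
towers (`Pool/Agent/Run7/h691/MI`, the pattern of project TE of helper707 for cubic twists): the
Euler factors of `E_δ` over a quadratic extension are those of `E_δ` and `E_{δ b}`; new is the
treatment of the places above `2`, where no model has good reduction, because `F / K` is unramified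
there.  The points over `F` are found by descent in the quadratic steps.  The central values over `K` are
the work of helper699 (`Pool/Agent/Y699`).
-/

set_option autoImplicit false

open scoped Classical

namespace Pool.Agent.Results.MP_cd906c_nt.EveryMultiquadraticGaussian

open NumberField WeierstrassCurve

/-- The curve `E_δ : y² = x³ - δ² x`. -/
def curve {F : Type} [Field F] (δ : F) : WeierstrassCurve F := ⟨0, 0, 0, -δ ^ 2, 0⟩

/-- `D ≡ 1 mod 2 + 2i`. -/
def Primary (D : GaussianInt) : Prop := (⟨2, 2⟩ : GaussianInt) ∣ D - 1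

/-- `D ≡ 1 mod 2 + 2i` is squarefree and its norm is `5` modulo `8`. -/
def InClass (D : GaussianInt) : Prop := Primary D ∧ Squarefree D ∧ D.norm % 8 = 5

/-- `a` is a square modulo each prime factor of `d`. -/
def SquareMod (d a : GaussianInt) : Prop :=
  ∀ π : GaussianInt, Prime π → π ∣ d → ∃ b, π ∣ a - b ^ 2

/-- The criterion: for every factorisation `D = d d'` with `d`, `d'` primary and different from `1`, `d'` is
not a square modulo one of the prime factors of `d`, or `d` is not a square modulo one of the prime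
factors of `d'`. -/
def Criterion (D : GaussianInt) : Prop :=
  ∀ d d' : GaussianInt, Primary d → Primary d' → D = d * d' →
    SquareMod d d' → SquareMod d' d → d = 1 ∨ d' = 1

/-- The `b i` are squarefree, congruent to `1` modulo `4` and independent modulo squares. -/
def Admissible {r : ℕ} (b : Fin r → GaussianInt) : Prop :=
  (∀ i, Squarefree (b i) ∧ (4 : GaussianInt) ∣ b i - 1) ∧
    ∀ J : Finset (Fin r), J.Nonempty → ¬ IsSquare (∏ i ∈ J, b i)

/-- The joint criterion: for every `J` the number `D_J` of the class such that `D D_J ∏_{i ∈ J} b_i` is a square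
(it exists and is unique) satisfies the criterion. -/
def Joint {r : ℕ} (b : Fin r → GaussianInt) (D : GaussianInt) : Prop :=
  ∀ J : Finset (Fin r), ∃ D' : GaussianInt, InClass D' ∧ IsSquare (D * D' * ∏ i ∈ J, b i) ∧ Criterion D'

section
variable {K : Type} [Field K] [NumberField K] (e : GaussianInt ≃+* 𝓞 K)

/-- `F` is generated over `K` by the square roots `θ i` of the elements `b i`. -/
def IsMultiquadratic {r : ℕ} (b : Fin r → GaussianInt) (F : Type) [Field F] [Algebra K F]
    (θ : Fin r → F) : Prop :=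
  (∀ i, θ i ^ 2 = algebraMap K F (e (b i))) ∧
    ∀ S : Subfield F, (∀ x : K, algebraMap K F x ∈ S) → (∀ i, θ i ∈ S) → S = ⊤

/-- `Λ` is entire and equal to `L(E_D / F, s)` for `Re s > 3 / 2`. -/
def Continues (F : Type) [Field F] [NumberField F] [Algebra K F] (D : GaussianInt) (Λ : ℂ → ℂ) :
    Prop :=
  Differentiable ℂ Λ ∧ ∀ s : ℂ, 3 / 2 < s.re → Λ s = (curve (algebraMap K F (e D))).LSeries s

/-- The order of vanishing of `Λ` at `1` is the rank of `E_D(F)`; moreover both are zero: `Λ 1 ≠ 0` and
`E_D(F)` has exactly four elements. -/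
def RankFormula (F : Type) [Field F] [NumberField F] [Algebra K F] (D : GaussianInt) (Λ : ℂ → ℂ) :
    Prop :=
  analyticOrderAt Λ 1 = (Module.finrank ℤ (curve (algebraMap K F (e D))).toAffine.Point : ℕ∞) ∧
    Λ 1 ≠ 0 ∧ Nat.card (curve (algebraMap K F (e D))).toAffine.Point = 4

end

/-- The rank part of the conjecture of Birch and Swinnerton-Dyer holds for `E_D` over `F = K(√b_1, …, √b_r)`,
`K = ℚ(i)`, with order and rank zero. -/
def Proved {r : ℕ} (b : Fin r → GaussianInt) (D : GaussianInt) : Prop :=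
  ∀ (K : Type) [Field K] [NumberField K] (e : GaussianInt ≃+* 𝓞 K) (F : Type) [Field F]
    [NumberField F] [Algebra K F] (θ : Fin r → F), IsMultiquadratic e b F θ →
      ∃ Λ : ℂ → ℂ, Continues e F D Λ ∧ RankFormula e F D Λ

/-- The number of the Gaussian integers of norm at most `X` with the property `P`. -/
noncomputable def num (P : GaussianInt → Prop) (X : ℕ) : ℕ := {D : GaussianInt | D.norm ≤ X ∧ P D}.ncard

/-- The infinite product `(1 - 1/2) (1 - 1/8) (1 - 1/32) ⋯`. -/
noncomputable def c : ℝ := ∏' i : ℕ, (1 - (1 / 2 : ℝ) ^ (2 * i + 1))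

theorem num_finite (P : GaussianInt → Prop) (X : ℕ) :
    {D : GaussianInt | D.norm ≤ X ∧ P D}.Finite := by
  refine (Pool.Agent.Y699.fin_norm_le X).subset ?_
  rintro D ⟨h, -⟩
  have h0 := GaussianInt.norm_nonneg D
  show D.norm.natAbs ≤ X
  omega

theorem primary_iff (D : GaussianInt) : Primary D ↔ Pool.Agent.H304R2.EC.A1.prim D :=
  (Pool.Agent.W164.RC.prim_iff_dvd D).symm

theorem square_iff {d d' D : GaussianInt} (hD : Squarefree D) (ho : D.norm % 2 = 1) (he : D = d * d')
    : SquareMod d d' ↔ ∀ π ∈ Pool.Agent.Y699.PD d, Pool.Agent.Y699.qr π d' = 1 := by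
  have hD0 : D ≠ 0 := hD.ne_zero
  have hd0 : d ≠ 0 := by
    rintro rfl
    exact hD0 (by rw [he, zero_mul])
  have hnd : ∀ π : GaussianInt, Prime π → π ∣ d → ¬ π ∣ d' := by
    intro π hπ h1 h2
    exact hπ.not_isUnit (hD π (by rw [he]; exact mul_dvd_mul h1 h2))
  constructor
  · intro h π hπ
    rw [Pool.Agent.Y699.mem_PD hd0] at hπ
    have h1 := hnd π hπ.1.pr hπ.2
    have h2 := h π hπ.1.pr hπ.2
    unfold Pool.Agent.Y699.qr
    rw [if_neg h1, if_pos h2]
  · intro h π hπ hπd
    have hodd : π.norm % 2 = 1 := Pool.Agent.Y699.odd_of_dvd (hπd.trans ⟨d', he⟩) ho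
    obtain ⟨ρ, hρ, hass⟩ := Pool.Agent.Y699.exists_PP hπ hodd
    have hρd : ρ ∣ d := hass.dvd.trans hπd
    have h1 := h ρ ((Pool.Agent.Y699.mem_PD hd0).2 ⟨hρ, hρd⟩)
    unfold Pool.Agent.Y699.qr at h1
    rw [if_neg (hnd ρ hρ.pr hρd)] at h1
    by_contra hc
    rw [if_neg (fun ⟨b, hb⟩ => hc ⟨b, hass.symm.dvd.trans hb⟩)] at h1
    exact absurd h1 (by norm_num)

theorem ps_of {D : GaussianInt} (h1 : Primary D) (h2 : Squarefree D) : Pool.Agent.Y699.PS D :=
  ⟨(primary_iff D).1 h1, h2⟩

theorem class_iff (D : GaussianInt) : InClass D ↔ Pool.Agent.H691.GZ.ClsE {5, 13} D := by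
  have h0 : ((H385.nrm D : ℕ) : ℤ) = D.norm := GaussianInt.abs_natCast_norm D
  constructor
  · rintro ⟨h1, h2, h3⟩
    refine ⟨⟨(primary_iff D).1 h1, h2⟩, ?_⟩
    rw [Finset.mem_insert, Finset.mem_singleton]
    rw [← h0] at h3
    omega
  · rintro ⟨h1, h2⟩
    refine ⟨(primary_iff D).2 h1.prm, h1.sqf, ?_⟩
    rw [Finset.mem_insert, Finset.mem_singleton] at h2
    rw [← h0]
    omega

/-- the two forms of the criterion -/
theorem crit_iff {D : GaussianInt} (h : InClass D) :
    Criterion D ↔ Pool.Agent.H691.GZ.Gd (Pool.Agent.Y699.PD D) := by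
  have hps := ps_of h.1 h.2.1
  have ho : D.norm % 2 = 1 := by have := h.2.2; omega
  constructor
  · intro h2
    refine Pool.Agent.H691.GZ.NS.gd_of_ker hps fun d d' hd hd' he k1 k2 => ?_
    exact h2 d d' ((primary_iff d).2 hd) ((primary_iff d').2 hd') he
      ((square_iff h.2.1 ho he).2 k1) ((square_iff h.2.1 ho (by rw [he, mul_comm])).2 k2)
  · intro h2 d d' hd hd' he k1 k2
    exact Pool.Agent.H691.GZ.NS.ker_of_gd hps h2 d d' ((primary_iff d).1 hd) ((primary_iff d').1 hd') he
      ((square_iff h.2.1 ho he).1 k1) ((square_iff h.2.1 ho (by rw [he, mul_comm])).1 k2)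

theorem ps_b {r : ℕ} {b : Fin r → GaussianInt} (hb : Admissible b) (i : Fin r) :
    Pool.Agent.Y699.PS (b i) := by
  refine ps_of ?_ (hb.1 i).1
  have h4 : (⟨2, 2⟩ : GaussianInt) ∣ 4 := ⟨⟨1, -1⟩, by decide⟩
  exact h4.trans (hb.1 i).2

/-- the twists are in the class -/
theorem class_DJ {r : ℕ} {b : Fin r → GaussianInt} (hb : Admissible b) {D D' : GaussianInt}
    (hD : InClass D) (J : Finset (Fin r)) (hD' : Pool.Agent.Y699.PS D')
    (h : IsSquare (D * D' * ∏ i ∈ J, b i)) : InClass D' :=
  ⟨(primary_iff D').2 hD'.prm, hD'.sqf, Pool.Agent.H691.MI.norm_DJ hD.2.2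
    (Pool.Agent.H304R2.EC.A1.prim_norm_odd hD'.prm)
    (Pool.Agent.H691.MI.norm_prod (fun i => (hb.1 i).2) J) h⟩

/-- the two forms of the joint criterion -/
theorem joint_iff {r : ℕ} {b : Fin r → GaussianInt} (hb : Admissible b) {D : GaussianInt}
    (hD : InClass D) : Joint b D ↔ Pool.Agent.H691.GJ.JK b D := by
  have hps := ps_of hD.1 hD.2.1
  constructor
  · intro h J D' hD' hs
    obtain ⟨D'', h1, h2, h3⟩ := h J
    have h4 : D' = D'' := by
      have e1 := Pool.Agent.H691.GJ.DJ_uniq (ps_b hb) hps hD' J hs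
      have e2 := Pool.Agent.H691.GJ.DJ_uniq (ps_b hb) hps (ps_of h1.1 h1.2.1) J h2
      rw [← hD'.prod, ← (ps_of h1.1 h1.2.1).prod, e1, e2]
    rw [h4]
    exact (crit_iff h1).1 h3
  · intro h J
    obtain ⟨D', hD'⟩ : ∃ D', D' = ∏ π ∈ symmDiff (Pool.Agent.Y699.PD D) (Pool.Agent.H691.GJ.UJ b J), π :=
      ⟨_, rfl⟩
    have h1 : Pool.Agent.Y699.PS D' := by
      rw [hD']
      exact (Pool.Agent.Y699.PS_prod (Pool.Agent.H691.GJ.DJ_pp (ps_b hb) hps J)).1
    have h2 : IsSquare (D * D' * ∏ i ∈ J, b i) := by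
      rw [hD']
      exact Pool.Agent.H691.GJ.DJ_sq (ps_b hb) hps J
    have h3 := class_DJ hb hD J h1 h2
    exact ⟨D', h3, h2, (crit_iff h3).2 (h J D' h1 h2)⟩

theorem norm_iff (D : GaussianInt) (X : ℕ) : D.norm ≤ X ↔ H385.nrm D ≤ X := by
  have h0 : ((H385.nrm D : ℕ) : ℤ) = D.norm := GaussianInt.abs_natCast_norm D
  omega

/-- the results over one field -/
theorem over_field {K : Type} [Field K] [NumberField K] (e : GaussianInt ≃+* 𝓞 K) {r : ℕ}
    {b : Fin r → GaussianInt} (hb : Admissible b) (F : Type) [Field F] [NumberField F] [Algebra K F]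
    (θ : Fin r → F) (hF : IsMultiquadratic e b F θ) :
    Module.finrank K F = 2 ^ r ∧ ∀ D : GaussianInt, Primary D → Squarefree D →
      ∃ Λ : ℂ → ℂ, Continues e F D Λ ∧ (InClass D → Joint b D → RankFormula e F D Λ) := by
  obtain ⟨h1, h2⟩ := Pool.Agent.H691.MI.over_F e (ps_b hb) (fun i => (hb.1 i).2) hb.2 F θ hF.1 hF.2
  refine ⟨h1, fun D hD hD2 => ?_⟩
  obtain ⟨Λ, h3, h4, h5⟩ := h2 D (ps_of hD hD2)
  refine ⟨Λ, ⟨h3, h4⟩, fun hcl hJ => ?_⟩
  obtain ⟨h6, h7⟩ := h5 hcl.2.2 ((joint_iff hb hcl).1 hJ)
  have hc : Nat.card (curve (algebraMap K F (e D))).toAffine.Point = 4 := by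
    have h0 : algebraMap K F ((e D : 𝓞 K) : K) ≠ 0 := by
      rw [Ne, map_eq_zero_iff _ (algebraMap K F).injective]
      intro h
      exact (map_ne_zero_iff _ e.injective).2 hD2.ne_zero (RingOfIntegers.ext h)
    exact Pool.Agent.Y699.card_pts h0 two_ne_zero h7
  have hfin : Finite (curve (algebraMap K F (e D))).toAffine.Point := by
    apply Nat.finite_of_card_ne_zero
    rw [hc]
    norm_num
  refine ⟨?_, h6, hc⟩
  have h11 : analyticOrderAt Λ 1 = 0 := analyticOrderAt_eq_zero.2 (Or.inr h6)
  have h12 : Module.finrank ℤ (curve (algebraMap K F (e D))).toAffine.Point = 0 := by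
    apply Module.finrank_eq_zero_of_rank_eq_zero
    rw [rank_eq_zero_iff]
    intro x
    refine ⟨(Nat.card (curve (algebraMap K F (e D))).toAffine.Point : ℤ), by rw [hc]; norm_num, ?_⟩
    rw [natCast_zsmul]
    exact card_nsmul_eq_zero'
  rw [h11, h12]
  rfl

theorem proved_of {r : ℕ} {b : Fin r → GaussianInt} (hb : Admissible b) {D : GaussianInt}
    (hD : InClass D) (hJ : Joint b D) : Proved b D := by
  intro K _ _ e F _ _ _ θ hF
  obtain ⟨Λ, h1, h2⟩ := (over_field e hb F θ hF).2 D hD.1 hD.2.1
  exact ⟨Λ, h1, h2 hD hJ⟩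

theorem proved_neg {r : ℕ} {b : Fin r → GaussianInt} {D : GaussianInt} (h : Proved b D) :
    Proved b (-D) := by
  intro K _ _ e F _ _ _ θ hF
  have h1 : curve (algebraMap K F (e (-D))) = curve (algebraMap K F (e D)) := by
    unfold curve
    have : ((e (-D) : 𝓞 K) : K) = -((e D : 𝓞 K) : K) := by rw [map_neg]; rfl
    rw [this, map_neg, neg_sq]
  obtain ⟨Λ, h2, h3⟩ := h K e F θ hF
  refine ⟨Λ, ?_, ?_⟩
  · unfold Continues
    rw [h1]
    exact h2
  · unfold RankFormula
    rw [h1]
    exact h3

/-- **Main theorem.**  (1) `0.4194 < c < 0.4195`, and there are at least `C X` numbers of norm at most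
`X` in the class.  For all `r` and all admissible `b = (b_1, …, b_r)`: (2) exactly the proportion
`c^(2^r)` of the class, ordered by norm, satisfies the joint criterion; (3) for all `κ < c^(2^r) / 6` and
large `X` the rank part of the conjecture of Birch and Swinnerton-Dyer holds over `F = K(√b_1, …, √b_r)` for
`E_D` for at least the proportion `κ` of all squarefree `D` of norm at most `X`; (4) for `K = ℚ(i)` the field
`F` exists, and for all forms of `F` the degree of `F / K` is `2^r`, for all squarefree `D ≡ 1 mod 2 + 2i` the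
function `L(E_D / F, s)` has an entire continuation, and if `D` is in the class and satisfies the joint
criterion, then its order at `s = 1` is the rank of `E_D(F)`, both are zero, and `E_D(F)` has exactly
four elements. -/
theorem result :
    (0.4194 < c ∧ c < 0.4195) ∧
    (∃ C : ℝ, 0 < C ∧ ∃ X₀ : ℕ, ∀ X : ℕ, X₀ ≤ X → C * X ≤ num InClass X) ∧
    ∀ (r : ℕ) (b : Fin r → GaussianInt), Admissible b →
      Filter.Tendsto (fun X : ℕ => (num (fun D => InClass D ∧ Joint b D) X : ℝ) / num InClass X)
        Filter.atTop (nhds (c ^ 2 ^ r)) ∧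
      (∀ κ : ℝ, κ < c ^ 2 ^ r / 6 → ∃ X₀ : ℕ, ∀ X : ℕ, X₀ ≤ X →
        κ * num Squarefree X ≤ num (fun D => Squarefree D ∧ Proved b D) X) ∧
      ∀ (K : Type) [Field K] [NumberField K] (e : GaussianInt ≃+* 𝓞 K),
        (∃ (F : Type) (_ : Field F) (_ : NumberField F) (_ : Algebra K F) (θ : Fin r → F),
          IsMultiquadratic e b F θ) ∧
        ∀ (F : Type) [Field F] [NumberField F] [Algebra K F] (θ : Fin r → F),
          IsMultiquadratic e b F θ →
          Module.finrank K F = 2 ^ r ∧ ∀ D : GaussianInt, Primary D → Squarefree D →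
            ∃ Λ : ℂ → ℂ, Continues e F D Λ ∧ (InClass D → Joint b D → RankFormula e F D Λ) := by
  have hc : c = Pool.Agent.Y703.CQ.c2 := rfl
  have hc2 := Pool.Agent.Y948.CQ.t_C2
  have hcl : ∀ X : ℕ, {D : GaussianInt | D.norm ≤ X ∧ InClass D} =
      {D : GaussianInt | H385.nrm D ≤ X ∧ Pool.Agent.H691.GZ.ClsE {5, 13} D} := by
    intro X
    ext D
    exact and_congr (norm_iff D X) (class_iff D)
  have hcs : ∀ X : ℕ, (num InClass X : ℝ) = ((Pool.Agent.H691.GZ.SS {5, 13} X).card : ℝ) := by
    intro X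
    unfold num
    rw [hcl, Pool.Agent.H691.GZ.NS.card_cls]
  refine ⟨⟨hc2.2.2.2.1, hc2.2.2.2.2⟩, ?_, fun r b hb => ?_⟩
  · obtain ⟨C, X₀, h1, h2⟩ := Pool.Agent.H691.GZ.low5
    refine ⟨C, h1, X₀, fun X hX => ?_⟩
    rw [hcs]
    exact h2 X hX
  have hjs : ∀ X : ℕ, {D : GaussianInt | D.norm ≤ X ∧ (InClass D ∧ Joint b D)} =
      {D : GaussianInt | H385.nrm D ≤ X ∧ Pool.Agent.H691.GZ.ClsE {5, 13} D ∧
        Pool.Agent.H691.GJ.JK b D} := by
    intro X
    ext D
    refine and_congr (norm_iff D X) ?_
    constructor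
    · rintro ⟨h1, h2⟩
      exact ⟨(class_iff D).1 h1, (joint_iff hb h1).1 h2⟩
    · rintro ⟨h1, h2⟩
      exact ⟨(class_iff D).2 h1, (joint_iff hb ((class_iff D).2 h1)).2 h2⟩
  have hlim : Filter.Tendsto (fun X : ℕ => (num (fun D => InClass D ∧ Joint b D) X : ℝ) /
      num InClass X) Filter.atTop (nhds (c ^ 2 ^ r)) := by
    rw [hc]
    refine (Pool.Agent.H691.GJ.t_JE Pool.Agent.H691.GZ.low5 (ps_b hb) hb.2).congr fun X => ?_
    unfold num
    rw [hjs, hcl]
  refine ⟨hlim, fun κ hκ => ?_, fun K _ _ e => ⟨?_, fun F _ _ _ θ hF => over_field e hb F θ hF⟩⟩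
  · rcases le_or_gt κ 0 with hκ0 | hκ0
    · refine ⟨0, fun X _ => ?_⟩
      have h1 : κ * (num Squarefree X : ℝ) ≤ 0 :=
        mul_nonpos_of_nonpos_of_nonneg hκ0 (Nat.cast_nonneg _)
      exact h1.trans (Nat.cast_nonneg _)
    obtain ⟨X₀, hX₀⟩ := Pool.Agent.H691.MI.share_gen (κ := κ / 2) (q := c ^ 2 ^ r)
      (G := fun X : ℕ => (num (fun D => InClass D ∧ Joint b D) X : ℝ)) (by positivity)
      (by linarith) (hlim.congr fun X => by rw [hcs])
    refine ⟨X₀, fun X hX => ?_⟩
    have h1 := hX₀ X hX
    have h2 : (num Squarefree X : ℝ) = ((Pool.Agent.H691.GZ.SQ.TT X).card : ℝ) := by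
      unfold num
      rw [← Set.ncard_coe_finset]
      congr 2
      ext D
      unfold Pool.Agent.H691.GZ.SQ.TT
      rw [Finset.mem_coe, Finset.mem_filter, Pool.Agent.Y699.mem_ZB]
      exact and_congr_left fun _ => norm_iff D X
    rw [h2]
    obtain ⟨G, hG⟩ : ∃ G : Set GaussianInt, G = {D : GaussianInt | D.norm ≤ X ∧
        (InClass D ∧ Joint b D)} := ⟨_, rfl⟩
    have hGf : G.Finite := by
      rw [hG]
      exact num_finite _ X
    have hneg : ∀ D ∈ G, -D ∉ G := by
      intro D hD hD'
      rw [hG] at hD hD'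
      have k1 := (ps_of hD.2.1.1 hD.2.1.2.1).prm
      have k2 := (ps_of hD'.2.1.1 hD'.2.1.2.1).prm
      obtain ⟨a1, a2⟩ := k1
      obtain ⟨b1, b2⟩ := k2
      simp only [Zsqrtd.re_neg, Zsqrtd.im_neg] at b1 b2
      omega
    have h3 : 2 * G.ncard ≤ num (fun D => Squarefree D ∧ Proved b D) X := by
      have h4 : (G ∪ (fun D => -D) '' G).ncard = 2 * G.ncard := by
        rw [Set.ncard_union_eq _ hGf (hGf.image _), Set.ncard_image_of_injective _ neg_injective,
          two_mul]
        rw [Set.disjoint_left]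
        rintro D hD ⟨D', hD', rfl⟩
        exact hneg D' hD' hD
      rw [← h4]
      refine Set.ncard_le_ncard ?_ (num_finite _ X)
      rintro D (hD | ⟨D', hD', rfl⟩)
      · rw [hG] at hD
        exact ⟨hD.1, hD.2.1.2.1, proved_of hb hD.2.1 hD.2.2⟩
      · rw [hG] at hD'
        refine ⟨?_, ?_, proved_neg (proved_of hb hD'.2.1 hD'.2.2)⟩
        · show (-D').norm ≤ X
          rw [Zsqrtd.norm_neg]
          exact hD'.1
        · show Squarefree (-D')
          intro x hx
          exact hD'.2.1.2.1 x ((dvd_neg).1 hx)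
    have h5 : (2 : ℝ) * G.ncard ≤ num (fun D => Squarefree D ∧ Proved b D) X := by exact_mod_cast h3
    have h6 : (num (fun D => InClass D ∧ Joint b D) X : ℝ) = G.ncard := by
      rw [hG]
      rfl
    simp only [h6] at h1
    linarith
  · obtain ⟨F, i1, i2, i3, θ, h1, h2⟩ := Pool.Agent.H691.MI.ex_F (fun i => ((e (b i) : 𝓞 K) : K))
    exact ⟨F, i1, i2, i3, θ, h1, h2⟩

end Pool.Agent.Results.MP_cd906c_nt.EveryMultiquadraticGaussian
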