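import Pool.Agent.Run7.h691.GZ.Sq4
import Pool.Agent.Y699.Mn

/-!
# The Birch and Swinnerton-Dyer conjecture for the quadratic twists of `y² = x³ - x` over `ℚ(i)`:
# exact proportions

`K` is a number field with an isomorphism `e` of the ring `ℤ[i]` of Gaussian integers with its ring
of integers (so `K = ℚ(i)`), and `E_D : y² = x³ - D² x` the quadratic twist of `y² = x³ - x` by
the Gaussian integer `D`. The class is the set of ALL squarefree `D ≡ 1 mod 2 + 2i` with
`N(D) ≡ 5 mod 8`; it contains one element of each pair `D`, `-D` for one sixth of all squarefree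
Gaussian integers. An elementary criterion, which says that a certain graph on the prime factors of
`D` has an odd number of spanning trees, implies the rank part of the conjecture of Birch and
Swinnerton-Dyer for `E_D / K` with order of vanishing and rank zero (starting file
`MP_1a91b9_nt.PositiveProportionGaussianTwists`, helper699). New here:

* the criterion holds for exactly the proportion `c = ∏_{i ≥ 0} (1 - 2^{-(2i+1)}) = 0.4194...` of the
  `D` in the class, ordered by norm;
* so the rank part of the conjecture holds for at least 41.94 percent of the class, and for at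
  least 6.99 percent of all quadratic twists of `y² = x³ - x` over `ℚ(i)`.

The count is project GZ (`Pool/Agent/Run7/h691/GZ`): a translation to `ℤ[i]` of project XK (over `ℤ[ω]`,
for cubic symbols, helper703 and others), with a sieve for the squarefree elements in residue classes.
-/

set_option autoImplicit false

namespace Pool.Agent.Results.MP_1a91b9_nt.GaussianTwistsExactProportion

open NumberField IsDedekindDomain

/-- `W v` is, for every finite place `v`, an integral model of `E` with discriminant minimal at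
`v`. -/
def MinimalModels {K : Type} [Field K] [NumberField K] (E : WeierstrassCurve K)
    (W : HeightOneSpectrum (𝓞 K) → WeierstrassCurve (𝓞 K)) : Prop :=
  ∀ v : HeightOneSpectrum (𝓞 K),
    (∃ C : WeierstrassCurve.VariableChange K, C • (W v).map (algebraMap (𝓞 K) K) = E) ∧
    ∀ W' : WeierstrassCurve (𝓞 K),
      (∃ C : WeierstrassCurve.VariableChange K, C • W'.map (algebraMap (𝓞 K) K) = E) →
      ∀ n : ℕ, (W v).Δ ∈ v.asIdeal ^ n → W'.Δ ∈ v.asIdeal ^ n

open Classical in
/-- The Euler factor at `v`, `(1 - a_v Nv^{-s} + Nv^{1-2s})⁻¹` if the reduction at `v` is good and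
`(1 - a_v Nv^{-s})⁻¹` if it is bad, where `a_v` is `Nv` minus the number of affine points of the
reduction of `W v`. -/
noncomputable def localFactor {K : Type} [Field K] [NumberField K]
    (W : HeightOneSpectrum (𝓞 K) → WeierstrassCurve (𝓞 K)) (v : HeightOneSpectrum (𝓞 K))
    (s : ℂ) : ℂ :=
  (1 - ((Ideal.absNorm v.asIdeal : ℂ)
        - (Nat.card {xy : (𝓞 K ⧸ v.asIdeal) × (𝓞 K ⧸ v.asIdeal) //
            ((W v).map (Ideal.Quotient.mk v.asIdeal)).toAffine.Equation xy.1 xy.2} : ℂ))
        * (Ideal.absNorm v.asIdeal : ℂ) ^ (-s)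
    + (if (W v).Δ ∈ v.asIdeal then 0 else (Ideal.absNorm v.asIdeal : ℂ))
        * (Ideal.absNorm v.asIdeal : ℂ) ^ (-2 * s))⁻¹

/-- The rank part of the conjecture for `E`, with order and rank equal to `r`: `E` has minimal models,
its `L`-series, the product of the Euler factors for `Re s > 3/2`, extends to an entire function `L`
with a zero of order `r` at `s = 1`, and the group `E(K)` is finitely generated of rank `r`. -/
def BSDRank {K : Type} [Field K] [NumberField K] [DecidableEq K] (E : WeierstrassCurve K) (r : ℕ) :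
    Prop :=
  (∃ W : HeightOneSpectrum (𝓞 K) → WeierstrassCurve (𝓞 K), MinimalModels E W) ∧
  (∃ L : ℂ → ℂ, Differentiable ℂ L ∧
    (∀ W : HeightOneSpectrum (𝓞 K) → WeierstrassCurve (𝓞 K), MinimalModels E W →
      ∀ s : ℂ, 3 / 2 < s.re → HasProd (fun v => localFactor W v s) (L s)) ∧
    analyticOrderAt L 1 = r) ∧
  Module.Finite ℤ E.toAffine.Point ∧ Module.finrank ℤ E.toAffine.Point = r

/-- The curve `y² = x³ - D² x`. -/
noncomputable def twist {K : Type} [Field K] [NumberField K] (e : GaussianInt ≃+* 𝓞 K)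
    (D : GaussianInt) : WeierstrassCurve K :=
  ⟨0, 0, 0, -(algebraMap (𝓞 K) K (e D)) ^ 2, 0⟩

/-- For `K = ℚ(i)` (every number field `K` with an isomorphism `e` of `ℤ[i]` with its ring of
integers), the rank part of the conjecture holds for `y² = x³ - D² x` over `K` with order of vanishing
and rank equal to zero, and this curve has exactly four points over `K`. -/
def Proved (D : GaussianInt) : Prop :=
  ∀ (K : Type) [Field K] [NumberField K] [DecidableEq K] (e : GaussianInt ≃+* 𝓞 K),
    BSDRank (twist e D) 0 ∧ Nat.card (twist e D).toAffine.Point = 4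

/-- `D ≡ 1 mod 2 + 2i`. -/
def Primary (D : GaussianInt) : Prop := (⟨2, 2⟩ : GaussianInt) ∣ D - 1

/-- `D ≡ 1 mod 2 + 2i` is squarefree and its norm is `5` modulo `8`. -/
def InClass (D : GaussianInt) : Prop := Primary D ∧ Squarefree D ∧ D.norm % 8 = 5

/-- `a` is a square modulo each prime factor of `d`. -/
def SquareMod (d a : GaussianInt) : Prop :=
  ∀ π : GaussianInt, Prime π → π ∣ d → ∃ b, π ∣ a - b ^ 2

/-- The criterion: for every factorisation `D = d d'` with `d`, `d'` primary and different from `1`, `d'` is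
not a square modulo one of the prime factors of `d`, or `d` is not a square modulo one of the prime
factors of `d'`. -/
def Criterion (D : GaussianInt) : Prop :=
  ∀ d d' : GaussianInt, Primary d → Primary d' → D = d * d' →
    SquareMod d d' → SquareMod d' d → d = 1 ∨ d' = 1

/-- The number of the Gaussian integers of norm at most `X` with the property `P`. -/
noncomputable def num (P : GaussianInt → Prop) (X : ℕ) : ℕ := {D : GaussianInt | D.norm ≤ X ∧ P D}.ncard

/-- The infinite product `(1 - 1/2) (1 - 1/8) (1 - 1/32) ⋯`. -/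
noncomputable def c : ℝ := ∏' i : ℕ, (1 - (1 / 2 : ℝ) ^ (2 * i + 1))

theorem num_finite (P : GaussianInt → Prop) (X : ℕ) :
    {D : GaussianInt | D.norm ≤ X ∧ P D}.Finite := by
  refine (Pool.Agent.Y699.fin_norm_le X).subset ?_
  rintro D ⟨h, -⟩
  have h0 := GaussianInt.norm_nonneg D
  show D.norm.natAbs ≤ X
  omega

/-- The rank part of the conjecture holds for `E_D` over `K = ℚ(i)`, with order of vanishing and rank
equal to zero, and `E_D(K)` has exactly four elements. -/
theorem twist_good {D : GaussianInt} (hg : Pool.Agent.Y699.Good D) : Proved D := by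
  intro K _ _ _ e
  have hc : Nat.card (twist e D).toAffine.Point = 4 := by
    have h0 : algebraMap (𝓞 K) K (e D) ≠ 0 := by
      rw [Ne, map_eq_zero_iff _ (IsFractionRing.injective (𝓞 K) K), map_eq_zero_iff _ e.injective]
      exact hg.ps.ne
    exact Pool.Agent.Y699.card_pts h0 two_ne_zero (fun x y h => Pool.Agent.Y699.crit_pts hg e h)
  have hfin : Finite (twist e D).toAffine.Point := by
    apply Nat.finite_of_card_ne_zero
    rw [hc]
    norm_num
  obtain ⟨L, hL1, hL2, hL3⟩ := Pool.Agent.Y699.crit_L hg e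
  refine ⟨⟨⟨fun _ => Pool.Agent.Y699.crv (e D), fun v => Pool.Agent.Y699.crv_min e hg.ps v⟩,
    ⟨L, hL1, fun W hW s hs => ?_, ?_⟩, ?_, ?_⟩, hc⟩
  · exact hL3 W hW s hs
  · exact (hL1.analyticAt 1).analyticOrderAt_eq_zero.2 hL2
  · infer_instance
  · exact Module.finrank_eq_zero_of_rank_eq_zero (rank_eq_zero_iff.2 (by
      intro x
      refine ⟨(Nat.card (twist e D).toAffine.Point : ℤ), by rw [hc]; norm_num, ?_⟩
      rw [natCast_zsmul, card_nsmul_eq_zero']))

theorem primary_iff (D : GaussianInt) : Primary D ↔ Pool.Agent.H304R2.EC.A1.prim D :=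
  (Pool.Agent.W164.RC.prim_iff_dvd D).symm

theorem square_iff {d d' D : GaussianInt} (hD : Squarefree D) (ho : D.norm % 2 = 1) (he : D = d * d')
    : SquareMod d d' ↔ ∀ π ∈ Pool.Agent.Y699.PD d, Pool.Agent.Y699.qr π d' = 1 := by
  have hD0 : D ≠ 0 := hD.ne_zero
  have hd0 : d ≠ 0 := by
    rintro rfl
    exact hD0 (by rw [he, zero_mul])
  have hnd : ∀ π : GaussianInt, Prime π → π ∣ d → ¬ π ∣ d' := by
    intro π hπ h1 h2
    exact hπ.not_isUnit (hD π (by rw [he]; exact mul_dvd_mul h1 h2))
  constructor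
  · intro h π hπ
    rw [Pool.Agent.Y699.mem_PD hd0] at hπ
    have h1 := hnd π hπ.1.pr hπ.2
    have h2 := h π hπ.1.pr hπ.2
    unfold Pool.Agent.Y699.qr
    rw [if_neg h1, if_pos h2]
  · intro h π hπ hπd
    have hodd : π.norm % 2 = 1 := Pool.Agent.Y699.odd_of_dvd (hπd.trans ⟨d', he⟩) ho
    obtain ⟨ρ, hρ, hass⟩ := Pool.Agent.Y699.exists_PP hπ hodd
    have hρd : ρ ∣ d := hass.dvd.trans hπd
    have h1 := h ρ ((Pool.Agent.Y699.mem_PD hd0).2 ⟨hρ, hρd⟩)
    unfold Pool.Agent.Y699.qr at h1
    rw [if_neg (hnd ρ hρ.pr hρd)] at h1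
    by_contra hc
    rw [if_neg (fun ⟨b, hb⟩ => hc ⟨b, hass.symm.dvd.trans hb⟩)] at h1
    exact absurd h1 (by norm_num)

theorem class_iff (D : GaussianInt) : InClass D ↔ Pool.Agent.H691.GZ.ClsE {5, 13} D := by
  have h0 : ((H385.nrm D : ℕ) : ℤ) = D.norm := GaussianInt.abs_natCast_norm D
  constructor
  · rintro ⟨h1, h2, h3⟩
    refine ⟨⟨(primary_iff D).1 h1, h2⟩, ?_⟩
    rw [Finset.mem_insert, Finset.mem_singleton]
    rw [← h0] at h3
    omega
  · rintro ⟨h1, h2⟩
    refine ⟨(primary_iff D).2 h1.prm, h1.sqf, ?_⟩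
    rw [Finset.mem_insert, Finset.mem_singleton] at h2
    rw [← h0]
    omega

theorem good_iff (D : GaussianInt) :
    (InClass D ∧ Criterion D) ↔ Pool.Agent.H691.GZ.GoodE {5, 13} D := by
  constructor
  · rintro ⟨h1, h2⟩
    have h3 := (class_iff D).1 h1
    have ho : D.norm % 2 = 1 := by have := h1.2.2; omega
    refine ⟨h3, fun d d' hd hd' he k1 k2 => ?_⟩
    exact h2 d d' ((primary_iff d).2 hd) ((primary_iff d').2 hd') he
      ((square_iff h1.2.1 ho he).2 k1) ((square_iff h1.2.1 ho (by rw [he, mul_comm])).2 k2)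
  · intro h
    have h1 := (class_iff D).2 h.cl
    have ho : D.norm % 2 = 1 := by have := h1.2.2; omega
    refine ⟨h1, fun d d' hd hd' he k1 k2 => ?_⟩
    exact h.ker d d' ((primary_iff d).1 hd) ((primary_iff d').1 hd') he
      ((square_iff h1.2.1 ho he).1 k1) ((square_iff h1.2.1 ho (by rw [he, mul_comm])).1 k2)

theorem norm_iff (D : GaussianInt) (X : ℕ) : D.norm ≤ X ↔ H385.nrm D ≤ X := by
  have h0 : ((H385.nrm D : ℕ) : ℤ) = D.norm := GaussianInt.abs_natCast_norm D
  omega

theorem proved_of_good {D : GaussianInt} (h : Pool.Agent.H691.GZ.GoodE {5, 13} D) : Proved D := by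
  have h1 := (class_iff D).2 h.cl
  exact twist_good ⟨h.cl.ps, h1.2.2, h.ker⟩

theorem proved_neg {D : GaussianInt} (h : Proved D) : Proved (-D) := by
  intro K _ _ _ e
  have h1 : twist e (-D) = twist e D := by
    unfold twist
    rw [map_neg, map_neg, neg_sq]
  rw [h1]
  exact h K e

open Classical in
/-- **Main theorem.** `K = ℚ(i)`, `E_D : y² = x³ - D² x`, `c = ∏_{i ≥ 0} (1 - 2^{-(2i+1)})`.
(1) `0.4194 < c < 0.4195`.
(2) Exactly the proportion `c` of the squarefree Gaussian integers `D ≡ 1 mod 2 + 2i` with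
`N(D) ≡ 5 mod 8`, ordered by norm, satisfies the criterion.
(3) If `D` in this class satisfies the criterion then `E_D(K)` has exactly four elements and the rank
part of the conjecture of Birch and Swinnerton-Dyer holds for `E_D / K` with order and rank zero.
(4) For large `X` at least 41.94 percent of the `D` in the class with norm at most `X` have this
property.
(5) For large `X` at least 6.99 percent of ALL squarefree Gaussian integers `D` (that is, of all
quadratic twists of `y² = x³ - x` over `ℚ(i)`, each counted twice, for `D` and `-D`) of norm at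
most `X` have this property. -/
theorem result :
    (0.4194 < c ∧ c < 0.4195) ∧
    Filter.Tendsto (fun X : ℕ => (num (fun D => InClass D ∧ Criterion D) X : ℝ) / num InClass X)
      Filter.atTop (nhds c) ∧
    (∀ D : GaussianInt, InClass D → Criterion D → Proved D) ∧
    (∃ X₀ : ℕ, ∀ X : ℕ, X₀ ≤ X →
      (0.4194 : ℝ) * num InClass X ≤ num (fun D => InClass D ∧ Proved D) X) ∧
    (∃ X₀ : ℕ, ∀ X : ℕ, X₀ ≤ X →
      (0.0699 : ℝ) * num Squarefree X ≤ num (fun D => Squarefree D ∧ Proved D) X) := by
  have hc : c = Pool.Agent.Y703.CQ.c2 := rfl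
  have hc2 := Pool.Agent.Y948.CQ.t_C2
  have hset1 : ∀ X : ℕ, {D : GaussianInt | D.norm ≤ X ∧ (InClass D ∧ Criterion D)} =
      {D : GaussianInt | H385.nrm D ≤ X ∧ Pool.Agent.H691.GZ.GoodE {5, 13} D} := by
    intro X
    ext D
    exact and_congr (norm_iff D X) (good_iff D)
  have hset2 : ∀ X : ℕ, {D : GaussianInt | D.norm ≤ X ∧ InClass D} =
      {D : GaussianInt | H385.nrm D ≤ X ∧ Pool.Agent.H691.GZ.ClsE {5, 13} D} := by
    intro X
    ext D
    exact and_congr (norm_iff D X) (class_iff D)
  have hlim : Filter.Tendsto (fun X : ℕ => (num (fun D => InClass D ∧ Criterion D) X : ℝ) /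
      num InClass X) Filter.atTop (nhds c) := by
    rw [hc]
    refine (Pool.Agent.H691.GZ.t_DEN {5, 13} Pool.Agent.H691.GZ.low5).congr fun X => ?_
    unfold num
    rw [hset1, hset2]
  have hpr : ∀ D : GaussianInt, InClass D → Criterion D → Proved D := fun D h1 h2 =>
    proved_of_good ((good_iff D).1 ⟨h1, h2⟩)
  refine ⟨⟨hc2.2.2.2.1, hc2.2.2.2.2⟩, hlim, hpr, ?_, ?_⟩
  · have h1 := (tendsto_order.1 hlim).1 0.4194 hc2.2.2.2.1
    obtain ⟨X₀, hX₀⟩ := Filter.eventually_atTop.1 h1
    refine ⟨X₀, fun X hX => ?_⟩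
    have h2 := hX₀ X hX
    have h3 : (num (fun D => InClass D ∧ Criterion D) X : ℝ) ≤
        num (fun D => InClass D ∧ Proved D) X := by
      have : num (fun D => InClass D ∧ Criterion D) X ≤ num (fun D => InClass D ∧ Proved D) X := by
        refine Set.ncard_le_ncard ?_ (num_finite _ X)
        rintro D ⟨k1, k2, k3⟩
        exact ⟨k1, k2, hpr D k2 k3⟩
      exact_mod_cast this
    by_cases h4 : (num InClass X : ℝ) = 0
    · rw [h4, mul_zero]
      exact Nat.cast_nonneg _
    · have h5 : (0 : ℝ) < num InClass X := lt_of_le_of_ne (Nat.cast_nonneg _) (Ne.symm h4)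
      rw [lt_div_iff₀ h5] at h2
      linarith
  · obtain ⟨X₀, hX₀⟩ := Pool.Agent.H691.GZ.SQ.share5 (κ := 0.0699 / 2) (by
      have := hc2.2.2.2.1
      rw [lt_div_iff₀ (by norm_num)]
      norm_num at this ⊢
      linarith)
    refine ⟨X₀, fun X hX => ?_⟩
    have h1 := hX₀ X hX
    have h2 : (num Squarefree X : ℝ) = ((Pool.Agent.H691.GZ.SQ.TT X).card : ℝ) := by
      unfold num
      rw [← Set.ncard_coe_finset]
      congr 2
      ext D
      unfold Pool.Agent.H691.GZ.SQ.TT
      rw [Finset.mem_coe, Finset.mem_filter, Pool.Agent.Y699.mem_ZB]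
      exact and_congr_left fun _ => norm_iff D X
    rw [h2]
    obtain ⟨G, hG⟩ : ∃ G : Set GaussianInt, G = {D : GaussianInt | H385.nrm D ≤ X ∧
        Pool.Agent.H691.GZ.GoodE {5, 13} D} := ⟨_, rfl⟩
    have hGf : G.Finite := by
      rw [hG, ← hset1]
      exact num_finite _ X
    have hneg : ∀ D ∈ G, -D ∉ G := by
      intro D hD hD'
      rw [hG] at hD hD'
      have k1 := hD.2.cl.ps.prm
      have k2 := hD'.2.cl.ps.prm
      obtain ⟨a1, a2⟩ := k1
      obtain ⟨b1, b2⟩ := k2
      simp only [Zsqrtd.re_neg, Zsqrtd.im_neg] at b1 b2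
      omega
    have h3 : 2 * G.ncard ≤ num (fun D => Squarefree D ∧ Proved D) X := by
      have h4 : (G ∪ (fun D => -D) '' G).ncard = 2 * G.ncard := by
        rw [Set.ncard_union_eq _ hGf (hGf.image _), Set.ncard_image_of_injective _ neg_injective,
          two_mul]
        rw [Set.disjoint_left]
        rintro D hD ⟨D', hD', rfl⟩
        exact hneg D' hD' hD
      rw [← h4]
      refine Set.ncard_le_ncard ?_ (num_finite _ X)
      rintro D (hD | ⟨D', hD', rfl⟩)
      · rw [hG] at hD
        exact ⟨(norm_iff D X).2 hD.1, hD.2.cl.ps.sqf, proved_of_good hD.2⟩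
      · rw [hG] at hD'
        refine ⟨?_, ?_, proved_neg (proved_of_good hD'.2)⟩
        · show (-D').norm ≤ X
          rw [Zsqrtd.norm_neg]
          exact (norm_iff D' X).2 hD'.1
        · show Squarefree (-D')
          intro x hx
          exact hD'.2.cl.ps.sqf x ((dvd_neg).1 hx)
    have h5 : (2 : ℝ) * G.ncard ≤ num (fun D => Squarefree D ∧ Proved D) X := by exact_mod_cast h3
    rw [← hG] at h1
    linarith

end Pool.Agent.Results.MP_1a91b9_nt.GaussianTwistsExactProportion
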