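import Pool.Agent.Run7.h691.QM.Fr
import Pool.Agent.Run7.h26.QJ.Va
import Pool.Agent.Run7.h26.QI.Ct10
import Pool.Agent.Run7.h26.QJ.Tp
import Pool.Agent.Run7.h26.QJ.Ta
import Pool.Agent.Run7.h763.QJ.IXE
import Pool.Agent.Run7.h795.QJ.IX4
import Pool.Agent.Run7.h795.QJ.IXI
import Pool.Agent.Run7.h843.QJ.PAR2

/-!
# The joint law of the 2-part of the strong conjecture of Birch and Swinnerton-Dyer for the quadratic
# twists of `y² = x³ - x` over `ℚ(i)`

`K = ℚ(i)` (a number field with an isomorphism `e` of the ring `ℤ[i]` with its ring of integers),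
`E_g : y² = x³ - g² x` the quadratic twist of `y² = x³ - x` by the Gaussian integer `g`. Fix `r ≥ 0` and any nonzero
Gaussian integers `b_1, …, b_r` that are independent modulo squares. For every `g` there are the `2^r` curves
`E_{g b^J}`, `b^J = ∏_{i ∈ J} b_i`, the factors of the Weil restriction of `E_g` from `K(√b_1, …, √b_r)` to `K` up to isogeny.
How often does the 2-part of the strong conjecture hold for all of them at the same time?

Every nonzero Gaussian integer is, up to a square, uniquely `c D` with `c = 1, i, 1 + i` or `i (1 + i)` and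
`D ≡ 1 mod 2 + 2i` squarefree (the normal form). The class consists of the squarefree `g` such that no `g b^J` has a
normal form with `c = 1`. It is a union of the sets `± c D`, all squarefree `D ≡ 1 mod 2 + 2i`, without any
congruence condition: all three classes `c ≠ 1` if the `b_i` are `≡ 1 mod 2 + 2i` and squarefree, at least two
of them if `r = 1`.

* For ALL `g` of the class and all `J`, if `c D` is the normal form of `g b^J`, then `E_{c D}` is isomorphic to `E_{g b^J}`,
  `L(E_{c D} / K, s)` is entire and `L(E_{c D} / K, 1) √|disc K| 4² / (Ω ∏ c_v)` is integral at all valuations above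
  `2`; it is a unit there exactly if an explicit criterion on the quadratic symbols between the prime
  factors of `c` and `D` holds.
* If the criteria for all the `J` hold (joint criterion), then for all the `2^r` curves the 2-part of the strong
  conjecture holds: the curve has exactly `4` points, `Ш[2^∞] = 0`, `L(1) ≠ 0`, and the quotient above is a
  unit at all valuations above `2`.
* Exactly the proportion `κ^(2^r)`, `κ = ∏_{i ≥ 0} (1 - 2^{-(2i+1)}) = 0.4194...`, of the class satisfies the joint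
  criterion, as if the `2^r` criteria were independent; and the class has the density `δ` among all
  squarefree `g`, `δ = 2/3` if the `b_i` are `≡ 1 mod 2 + 2i` and squarefree, `δ ≥ 1/3` if `r = 1`, `δ ≥ 1/6` if it is not empty.

The case `r = 0` (27.96 percent of all quadratic twists) is `MP_e996df_nt.GaussianTwistsTwoPart`, the work of
helper26 with helper160, helper763, helper795 and helper843 (`Pool/Agent/Run7/h26/QJ`), on top of work of
helper699. New here is the joint law (`Pool/Agent/Run7/h691/QM`): the large sieve for the quadratic symbols of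
`ℤ[i]`, the masks of the fixed primes and of `i`, `1 + i`, and the number of the pairs of solutions as averages
over linear spaces of symmetric matrices.
-/

set_option autoImplicit false

open scoped Classical

namespace Pool.Agent.Results.MP_9ab903_nt.JointTwoPartTwists

open NumberField IsDedekindDomain

/-- `W v` is, for every finite place `v`, an integral model of `E` with discriminant minimal at
`v`. -/
def MinimalModels {K : Type} [Field K] [NumberField K] (E : WeierstrassCurve K)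
    (W : HeightOneSpectrum (𝓞 K) → WeierstrassCurve (𝓞 K)) : Prop :=
  ∀ v : HeightOneSpectrum (𝓞 K),
    (∃ C : WeierstrassCurve.VariableChange K, C • (W v).map (algebraMap (𝓞 K) K) = E) ∧
    ∀ W' : WeierstrassCurve (𝓞 K),
      (∃ C : WeierstrassCurve.VariableChange K, C • W'.map (algebraMap (𝓞 K) K) = E) →
      ∀ n : ℕ, (W v).Δ ∈ v.asIdeal ^ n → W'.Δ ∈ v.asIdeal ^ n

/-- The Euler factor at `v`, `(1 - a_v Nv^{-s} + Nv^{1-2s})⁻¹` if the reduction at `v` is good and
`(1 - a_v Nv^{-s})⁻¹` if it is bad, where `a_v` is `Nv` minus the number of affine points of the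
reduction of `W v`. -/
noncomputable def localFactor {K : Type} [Field K] [NumberField K]
    (W : HeightOneSpectrum (𝓞 K) → WeierstrassCurve (𝓞 K)) (v : HeightOneSpectrum (𝓞 K))
    (s : ℂ) : ℂ :=
  (1 - ((Ideal.absNorm v.asIdeal : ℂ)
        - (Nat.card {xy : (𝓞 K ⧸ v.asIdeal) × (𝓞 K ⧸ v.asIdeal) //
            ((W v).map (Ideal.Quotient.mk v.asIdeal)).toAffine.Equation xy.1 xy.2} : ℂ))
        * (Ideal.absNorm v.asIdeal : ℂ) ^ (-s)
    + (if (W v).Δ ∈ v.asIdeal then 0 else (Ideal.absNorm v.asIdeal : ℂ))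
        * (Ideal.absNorm v.asIdeal : ℂ) ^ (-2 * s))⁻¹

/-- `L` is the entire continuation of the `L`-function of `E`, the product of the Euler factors of the
minimal models for `Re s > 3/2`; `E` has minimal models. -/
def IsLFunction {K : Type} [Field K] [NumberField K] (E : WeierstrassCurve K) (L : ℂ → ℂ) : Prop :=
  Differentiable ℂ L ∧ (∃ W : HeightOneSpectrum (𝓞 K) → WeierstrassCurve (𝓞 K), MinimalModels E W) ∧
    ∀ W : HeightOneSpectrum (𝓞 K) → WeierstrassCurve (𝓞 K), MinimalModels E W →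
      ∀ s : ℂ, 3 / 2 < s.re → HasProd (fun v => localFactor W v s) (L s)

/-- The equation `E` is integral and its discriminant is minimal at all finite places (`W` is the equation
over the ring of integers), and `c v` is the Tamagawa number of `E` at `v`: the index in
`E(K_v)` of the subgroup of the points of nonsingular reduction. -/
def IsTamagawa {K : Type} [Field K] [NumberField K] (E : WeierstrassCurve K)
    (c : HeightOneSpectrum (𝓞 K) → ℕ) : Prop :=
  (∃ W : WeierstrassCurve (𝓞 K), W.map (algebraMap (𝓞 K) K) = E ∧ MinimalModels E (fun _ => W)) ∧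
  (∀ v : HeightOneSpectrum (𝓞 K),
    ∃ H : AddSubgroup (E.baseChange (v.adicCompletion K)).toAffine.Point,
      (∀ P, P ∈ H ↔ Pool.Agent.Y696.NonsingRed Valued.v (E.baseChange (v.adicCompletion K)) P) ∧
      H.index = c v) ∧
  {v | c v ≠ 1}.Finite

/-- `Λ` is the lattice of periods of the differential `dx / (2y + a₁x + a₃)` of the curve `E`, embedded
in the complex numbers by `σ`. -/
def IsPeriodLattice {K : Type} [Field K] (E : WeierstrassCurve K) (σ : K →+* ℂ)
    (Λ : PeriodPair) : Prop :=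
  Λ.g₂ = σ E.c₄ / 12 ∧ Λ.g₃ = σ E.c₆ / 216

/-- Twice the area of a fundamental parallelogram of the lattice. -/
noncomputable def period (Λ : PeriodPair) : ℝ := 2 * |((starRingEnd ℂ) Λ.ω₁ * Λ.ω₂).im|

/-- The quotient `L(E, 1) √|disc K| t² / (Ω ∏ c_v)`. -/
noncomputable def quotient (K : Type) [Field K] [NumberField K] (L : ℂ → ℂ) (t : ℕ) (Λ : PeriodPair)
    (c : HeightOneSpectrum (𝓞 K) → ℕ) : ℂ :=
  L 1 * (Real.sqrt |(discr K : ℝ)| : ℝ) * (t : ℂ) ^ 2 / ((period Λ : ℂ) * ((∏ᶠ v, c v : ℕ) : ℂ))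

/-- The valuation part with `t` in the place of the order of `E(K)`: the quotient is
integral at all valuations `w` of the field of complex numbers with `w 2 < 1`, and it is a unit there exactly if
`G` holds. -/
def ValuePart {K : Type} [Field K] [NumberField K] (E : WeierstrassCurve K) (t : ℕ) (G : Prop) : Prop :=
  ∃ (L : ℂ → ℂ) (c : HeightOneSpectrum (𝓞 K) → ℕ), IsLFunction E L ∧ IsTamagawa E c ∧
    ∀ σ : K →+* ℂ, (∃ Λ : PeriodPair, IsPeriodLattice E σ Λ) ∧
      ∀ Λ : PeriodPair, IsPeriodLattice E σ Λ →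
        ∀ (Γ : Type) [LinearOrderedCommGroupWithZero Γ] (w : Valuation ℂ Γ), w 2 < 1 →
          w (quotient K L t Λ c) ≤ 1 ∧ (w (quotient K L t Λ c) = 1 ↔ G)

/-- The 2-part of the strong conjecture, rank zero: `E(K)` is finite (so of rank zero),
`Ш(E/K)[2^∞] = 0`, `L(E/K, s)` is entire with `L(E/K, 1) ≠ 0`, and
`L(E/K, 1) √|disc K| #E(K)² / (Ω ∏ c_v)` is a unit at every valuation `w` of the field of complex
numbers with `w 2 < 1`. -/
def TwoPart {K : Type} [Field K] [NumberField K] (E : WeierstrassCurve K) : Prop :=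
  Finite E.toAffine.Point ∧
  (∀ (n : ℕ) (x : Pool.Agent.TH841.NF.D.Sha E), 2 ^ n • x = 0 → x = 0) ∧
  ∃ (L : ℂ → ℂ) (c : HeightOneSpectrum (𝓞 K) → ℕ), IsLFunction E L ∧ L 1 ≠ 0 ∧ IsTamagawa E c ∧
    ∀ σ : K →+* ℂ, (∃ Λ : PeriodPair, IsPeriodLattice E σ Λ) ∧
      ∀ Λ : PeriodPair, IsPeriodLattice E σ Λ →
        ∀ (Γ : Type) [LinearOrderedCommGroupWithZero Γ] (w : Valuation ℂ Γ), w 2 < 1 →
          w (quotient K L (Nat.card E.toAffine.Point) Λ c) = 1

/-- The curve `y² = x³ - g² x`. -/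
noncomputable def twist {K : Type} [Field K] [NumberField K] (e : GaussianInt ≃+* 𝓞 K)
    (g : GaussianInt) : WeierstrassCurve K :=
  ⟨0, 0, 0, -(algebraMap (𝓞 K) K (e g)) ^ 2, 0⟩

/-- `D ≡ 1 mod 2 + 2i`. -/
def Primary (D : GaussianInt) : Prop := (⟨2, 2⟩ : GaussianInt) ∣ D - 1

/-- `a` is a square modulo each prime factor of `d`. -/
def SquareMod (d a : GaussianInt) : Prop :=
  ∀ π : GaussianInt, Prime π → π ∣ d → ∃ b, π ∣ a - b ^ 2

/-- The criterion for `g = c D`: the only factorisation `D = d d'` with `d`, `d'` primary, `c d'` a square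
modulo each prime factor of `d` and `d` a square modulo each prime factor of `d'` is the one with
`d = 1`. -/
def Criterion (c D : GaussianInt) : Prop :=
  ∀ d d' : GaussianInt, Primary d → Primary d' → D = d * d' →
    SquareMod d (c * d') → SquareMod d' d → d = 1

/-- `c` is `1`, `i`, `1 + i` or `i (1 + i)`. -/
def IsTwistor (c : GaussianInt) : Prop := c = 1 ∨ c = ⟨0, 1⟩ ∨ c = ⟨1, 1⟩ ∨ c = ⟨0, 1⟩ * ⟨1, 1⟩

/-- `c D` is the normal form of `x` modulo squares. -/
def NormalForm (x c D : GaussianInt) : Prop :=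
  IsTwistor c ∧ Primary D ∧ Squarefree D ∧ IsSquare (x * (c * D))

/-- The `b i` are nonzero and independent modulo squares. -/
def Independent {r : ℕ} (b : Fin r → GaussianInt) : Prop :=
  (∀ i, b i ≠ 0) ∧ ∀ J : Finset (Fin r), J.Nonempty → ¬ IsSquare (∏ i ∈ J, b i)

/-- The class: `g` is squarefree and no `g ∏_{i ∈ J} b_i` has a normal form with first component `1`. -/
def InClass {r : ℕ} (b : Fin r → GaussianInt) (g : GaussianInt) : Prop :=
  Squarefree g ∧ ∀ (J : Finset (Fin r)) (D : GaussianInt), ¬ NormalForm (g * ∏ i ∈ J, b i) 1 D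

/-- The joint criterion: for every `J` the normal form `c D` of `g ∏_{i ∈ J} b_i` satisfies the criterion. -/
def Joint {r : ℕ} (b : Fin r → GaussianInt) (g : GaussianInt) : Prop :=
  ∀ (J : Finset (Fin r)) (c D : GaussianInt), NormalForm (g * ∏ i ∈ J, b i) c D → Criterion c D

/-- For `K = ℚ(i)` (every number field `K` with an isomorphism `e` of `ℤ[i]` with its ring of integers) and
all `J`, if `c D` is the normal form of `g ∏_{i ∈ J} b_i`, then `y² = x³ - (c D)² x` has exactly four points over `K`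
and satisfies `TwoPart`. -/
def Proved {r : ℕ} (b : Fin r → GaussianInt) (g : GaussianInt) : Prop :=
  ∀ (K : Type) [Field K] [NumberField K] (e : GaussianInt ≃+* 𝓞 K) (J : Finset (Fin r))
    (c D : GaussianInt), NormalForm (g * ∏ i ∈ J, b i) c D →
      Nat.card (twist e (c * D)).toAffine.Point = 4 ∧ TwoPart (twist e (c * D))

/-- The number of the Gaussian integers of norm at most `X` with the property `P`. -/
noncomputable def num (P : GaussianInt → Prop) (X : ℕ) : ℕ := {D : GaussianInt | D.norm ≤ X ∧ P D}.ncard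

/-- The infinite product `(1 - 1/2) (1 - 1/8) (1 - 1/32) ⋯`. -/
noncomputable def κ : ℝ := ∏' i : ℕ, (1 - (1 / 2 : ℝ) ^ (2 * i + 1))

theorem norm_iff (D : GaussianInt) (X : ℕ) : D.norm ≤ X ↔ H385.nrm D ≤ X := by
  have h0 : ((H385.nrm D : ℕ) : ℤ) = D.norm := GaussianInt.abs_natCast_norm D
  omega

theorem num_eq (P : GaussianInt → Prop) (X : ℕ) : num P X = Run7.h26.QI.nQ P X := by
  unfold num Run7.h26.QI.nQ
  congr 1
  ext D
  exact and_congr_left fun _ => norm_iff D X

theorem num_congr {P Q : GaussianInt → Prop} (h : ∀ g, P g ↔ Q g) (X : ℕ) : num P X = num Q X := by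
  unfold num
  congr 1
  ext g
  exact and_congr_right fun _ => h g

theorem num_mono {P Q : GaussianInt → Prop} (h : ∀ g, P g → Q g) (X : ℕ) : num P X ≤ num Q X := by
  rw [num_eq, num_eq]
  exact Set.ncard_le_ncard (fun g hg => ⟨hg.1, h g hg.2⟩) (Run7.h26.QI.fin_Q Q X)

theorem primary_iff (D : GaussianInt) : Primary D ↔ Pool.Agent.H304R2.EC.A1.prim D :=
  (Pool.Agent.W164.RC.prim_iff_dvd D).symm

theorem sp_iff (D : GaussianInt) : (Primary D ∧ Squarefree D) ↔ Pool.Agent.Y699.PS D :=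
  ⟨fun h => ⟨(primary_iff D).1 h.1, h.2⟩, fun h => ⟨(primary_iff D).2 h.prm, h.sqf⟩⟩

theorem square_iff {d a : GaussianInt} (hd0 : d ≠ 0) (ho : d.norm % 2 = 1)
    (hnd : ∀ π : GaussianInt, Prime π → π ∣ d → ¬ π ∣ a) :
    SquareMod d a ↔ ∀ π ∈ Pool.Agent.Y699.PD d, Pool.Agent.Y699.qr π a = 1 := by
  constructor
  · intro h π hπ
    rw [Pool.Agent.Y699.mem_PD hd0] at hπ
    have h1 := hnd π hπ.1.pr hπ.2
    have h2 := h π hπ.1.pr hπ.2
    unfold Pool.Agent.Y699.qr
    rw [if_neg h1, if_pos h2]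
  · intro h π hπ hπd
    have hodd : π.norm % 2 = 1 := Pool.Agent.Y699.odd_of_dvd hπd ho
    obtain ⟨ρ, hρ, hass⟩ := Pool.Agent.Y699.exists_PP hπ hodd
    have hρd : ρ ∣ d := hass.dvd.trans hπd
    have h1 := h ρ ((Pool.Agent.Y699.mem_PD hd0).2 ⟨hρ, hρd⟩)
    unfold Pool.Agent.Y699.qr at h1
    rw [if_neg (hnd ρ hρ.pr hρd)] at h1
    by_contra hc
    rw [if_neg (fun ⟨b, hb⟩ => hc ⟨b, hass.symm.dvd.trans hb⟩)] at h1
    exact absurd h1 (by norm_num)

theorem factor_data {D d d' : GaussianInt} (hD : Pool.Agent.Y699.PS D) (he : D = d * d') :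
    d ≠ 0 ∧ d.norm % 2 = 1 ∧ ∀ π : GaussianInt, Prime π → π ∣ d → ¬ π ∣ d' := by
  have hd0 : d ≠ 0 := by
    rintro rfl
    exact hD.ne (by rw [he, zero_mul])
  have ho : D.norm % 2 = 1 := Pool.Agent.H304R2.EC.A1.prim_norm_odd hD.prm
  refine ⟨hd0, Pool.Agent.Y699.odd_of_dvd ⟨d', he⟩ ho, ?_⟩
  intro π hπ h1 h2
  exact hπ.not_isUnit (hD.sqf π (by rw [he]; exact mul_dvd_mul h1 h2))

theorem twistor_iff (c : GaussianInt) : IsTwistor c ↔ Pool.Agent.H691.QM.Cx c := Iff.rfl

theorem nf_iff (x c D : GaussianInt) : NormalForm x c D ↔ Pool.Agent.H691.QM.Rp x c D :=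
  ⟨fun h => ⟨h.1, (sp_iff D).1 ⟨h.2.1, h.2.2.1⟩, h.2.2.2⟩,
    fun h => ⟨h.cx, ((sp_iff D).2 h.ps).1, ((sp_iff D).2 h.ps).2, h.sq⟩⟩

theorem not_dvd_twistor {c π : GaussianInt} (hc : IsTwistor c) (hπ : Prime π) (ho : π.norm % 2 = 1) :
    ¬ π ∣ c := by
  obtain ⟨ρ, hρ, hass⟩ := Pool.Agent.Y699.exists_PP hπ ho
  intro h
  exact Pool.Agent.H691.QM.cx_np ((twistor_iff c).1 hc) hρ (hass.dvd.trans h)

theorem crit_iff {c D : GaussianInt} (hc : IsTwistor c) (h1 : c ≠ 1) (hD : Pool.Agent.Y699.PS D) :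
    Criterion c D ↔ Run7.h26.QI.GoodC c D := by
  have main : ∀ d d' : GaussianInt, D = d * d' →
      ((SquareMod d (c * d') ↔ ∀ π ∈ Pool.Agent.Y699.PD d, Pool.Agent.Y699.qr π (c * d') = 1) ∧
      (SquareMod d' d ↔ ∀ π ∈ Pool.Agent.Y699.PD d', Pool.Agent.Y699.qr π d = 1)) := by
    intro d d' he
    obtain ⟨a1, a2, a3⟩ := factor_data hD he
    obtain ⟨b1, b2, b3⟩ := factor_data hD (by rw [he, mul_comm] : D = d' * d)
    refine ⟨square_iff a1 a2 ?_, square_iff b1 b2 b3⟩
    intro π hπ h1 h2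
    rcases hπ.dvd_or_dvd h2 with h3 | h3
    · exact not_dvd_twistor hc hπ (Pool.Agent.Y699.odd_of_dvd h1 a2) h3
    · exact a3 π hπ h1 h3
  constructor
  · intro h2
    refine ⟨hD, fun d d' hd hd' he k1 k2 => ?_⟩
    obtain ⟨m1, m2⟩ := main d d' he
    exact h2 d d' ((primary_iff d).2 hd) ((primary_iff d').2 hd') he (m1.2 k1) (m2.2 k2)
  · intro h d d' hd hd' he k1 k2
    obtain ⟨m1, m2⟩ := main d d' he
    exact h.ker d d' ((primary_iff d).1 hd) ((primary_iff d').1 hd') he (m1.1 k1) (m2.1 k2)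

theorem gx_iff {c D : GaussianInt} (hc : IsTwistor c) (h1 : c ≠ 1) (hD : Pool.Agent.Y699.PS D) :
    Pool.Agent.H691.QM.Gx c D ↔ Run7.h26.QI.GoodC c D := by
  rw [Pool.Agent.H691.QM.gx_crit ((twistor_iff c).1 hc) hD]
  exact ⟨fun h => h.2 h1, fun h => ⟨fun h2 => absurd h2 h1, fun _ => h⟩⟩

theorem class_iff {r : ℕ} {b : Fin r → GaussianInt} (g : GaussianInt) :
    InClass b g ↔ Squarefree g ∧ Pool.Agent.H691.QM.FrE b g :=
  and_congr_right fun _ => forall_congr' fun J => forall_congr' fun D => by rw [nf_iff]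

theorem joint_iff {r : ℕ} {b : Fin r → GaussianInt} {g : GaussianInt}
    (hg : Pool.Agent.H691.QM.FrE b g) : Joint b g ↔ Pool.Agent.H691.QM.JE b g := by
  refine forall_congr' fun J => forall_congr' fun c => forall_congr' fun D => ?_
  rw [nf_iff]
  have hne : ∀ h : Pool.Agent.H691.QM.Rp (g * ∏ i ∈ J, b i) c D, c ≠ 1 := by
    rintro h rfl
    exact hg J D h
  constructor
  · intro h h1
    rw [gx_iff ((twistor_iff c).2 h1.cx) (hne h1) h1.ps]
    exact (crit_iff ((twistor_iff c).2 h1.cx) (hne h1) h1.ps).1 (h h1)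
  · intro h h1
    rw [crit_iff ((twistor_iff c).2 h1.cx) (hne h1) h1.ps]
    exact (gx_iff ((twistor_iff c).2 h1.cx) (hne h1) h1.ps).1 (h h1)

theorem twist_q4 {K : Type} [Field K] [NumberField K] (e : GaussianInt ≃+* 𝓞 K) (g : GaussianInt) :
    twist e g = Pool.Agent.Y715.Z.q4 (-(Pool.Agent.Y715.Z.em0 e g) ^ 2) := by
  unfold twist Pool.Agent.Y715.Z.q4
  rw [Pool.Agent.Y715.Z.em0_apply]

theorem tamagawa {c D : GaussianInt} (hc : Run7.h26.QI.cc3 c) (hD : Pool.Agent.Y699.PS D) {K : Type}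
    [Field K] [NumberField K] (e : GaussianInt ≃+* 𝓞 K) :
    IsTamagawa (twist e (c * D)) (Run7.h26.QJ.cT e c D) := by
  have hne : c * D ≠ 0 := mul_ne_zero (Run7.h26.QI.cc3_ne hc) hD.ne
  refine ⟨⟨Pool.Agent.Y699.crv (e (c * D)), ?_, fun v => Run7.h26.QI.crv_min' e hne
    (Run7.h26.QI.noup_cD hc hD) (Run7.h26.QI.sq_cD hc hD) v⟩, fun v => ?_, (Run7.h26.QJ.t_TPR K e c D hc hD).1⟩
  · unfold twist Pool.Agent.Y699.crv
    simp [WeierstrassCurve.map]
  · have hbc : (twist e (c * D)).baseChange (v.adicCompletion K) = Pool.Agent.Y715.Z.q4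
        (algebraMap K (v.adicCompletion K) (-(Pool.Agent.Y715.Z.em0 e (c * D)) ^ 2)) := by
      rw [twist_q4]
      exact Pool.Agent.Y715.Z.q4_map _ _
    rw [hbc]
    exact (Run7.h26.QJ.t_TAM Run7.h795.QJ.t_IX4 Run7.h763.QJ.t_IXE Run7.h795.QJ.t_IXI) K e c D hc hD v

theorem period_data {K : Type} [Field K] [NumberField K] (e : GaussianInt ≃+* 𝓞 K) (g : GaussianInt)
    (σ : K →+* ℂ) : σ (twist e g).c₄ / 12 = -4 * σ (-(Pool.Agent.Y715.Z.em0 e g) ^ 2) ∧
      σ (twist e g).c₆ / 216 = 0 ∧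
      ‖σ (-(Pool.Agent.Y715.Z.em0 e g) ^ 2)‖ = ‖Pool.Agent.H304R3.HK.tc g‖ ^ 2 := by
  refine ⟨?_, ?_, ?_⟩
  · have h5 : (twist e g).c₄ = -48 * (-(Pool.Agent.Y715.Z.em0 e g) ^ 2) := by
      rw [twist_q4]
      exact Pool.Agent.Y715.Z.q4_c₄ _
    rw [h5, map_mul, map_neg, map_ofNat]
    ring
  · have h7 : (twist e g).c₆ = 0 := by
      simp only [twist, WeierstrassCurve.c₆, WeierstrassCurve.b₂, WeierstrassCurve.b₄,
        WeierstrassCurve.b₆]
      ring
    rw [h7, map_zero, zero_div]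
  · rw [map_neg, norm_neg, map_pow, norm_pow, Pool.Agent.Y715.Z.norm_emb e σ g]

theorem lfun {c D : GaussianInt} (hc : Run7.h26.QI.cc3 c) (hD : Pool.Agent.Y699.PS D) {K : Type}
    [Field K] [NumberField K] (e : GaussianInt ≃+* 𝓞 K) :
    ∃ L : ℂ → ℂ, IsLFunction (twist e (c * D)) L ∧
      ∀ σ : K →+* ℂ, (∃ Λ : PeriodPair, IsPeriodLattice (twist e (c * D)) σ Λ) ∧
        ∀ Λ : PeriodPair, IsPeriodLattice (twist e (c * D)) σ Λ →
          ∀ (Γ : Type) [LinearOrderedCommGroupWithZero Γ] (w : Valuation ℂ Γ), w 2 < 1 →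
            w (quotient K L 4 Λ (Run7.h26.QJ.cT e c D)) ≤ 1 ∧
            (w (quotient K L 4 Λ (Run7.h26.QJ.cT e c D)) = 1 ↔ Run7.h26.QI.GoodC c D) := by
  have hne : c * D ≠ 0 := mul_ne_zero (Run7.h26.QI.cc3_ne hc) hD.ne
  obtain ⟨L, h1, h2, h3⟩ := Run7.h26.QJ.val_all hc hD e
  refine ⟨L, ⟨h1, ⟨fun _ => Pool.Agent.Y699.crv (e (c * D)), fun v => Run7.h26.QI.crv_min' e hne
    (Run7.h26.QI.noup_cD hc hD) (Run7.h26.QI.sq_cD hc hD) v⟩, fun W hW s hs => h2 W hW s hs⟩, ?_⟩
  intro σ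
  obtain ⟨p1, p2, p3⟩ := period_data e (c * D) σ
  have hδ0 : σ (-(Pool.Agent.Y715.Z.em0 e (c * D)) ^ 2) ≠ 0 := by
    rw [Ne, map_eq_zero, neg_eq_zero]
    exact pow_ne_zero 2 (Pool.Agent.Y715.Z.em0_ne e hne)
  refine ⟨?_, ?_⟩
  · obtain ⟨Λ, k1, k2⟩ := Pool.Agent.Y715.Z.per_ex hδ0
    exact ⟨Λ, by rw [p1]; exact k1, by rw [p2]; exact k2⟩
  · intro Λ hΛ Γ _ w hw
    have k := h3 _ Λ p3 (hΛ.1.trans p1) (hΛ.2.trans p2) Γ w hw
    have hq : quotient K L 4 Λ (Run7.h26.QJ.cT e c D) =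
        L 1 * 2 * 4 ^ 2 / (((2 * |((starRingEnd ℂ) Λ.ω₁ * Λ.ω₂).im| : ℝ) : ℂ) *
            (4 ^ (Pool.Agent.Y699.PD D).card * ((if c = H385.im1 then 2 else 4 : ℕ) : ℂ))) := by
      unfold quotient period
      rw [Pool.Agent.Y715.Z.sqrt_discr e, (Run7.h26.QJ.t_TPR K e c D hc hD).2]
      push_cast
      rfl
    rw [hq]
    exact k

theorem value_cD {c D : GaussianInt} (hc : Run7.h26.QI.cc3 c) (hD : Pool.Agent.Y699.PS D) {K : Type}
    [Field K] [NumberField K] (e : GaussianInt ≃+* 𝓞 K) :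
    ValuePart (twist e (c * D)) 4 (Run7.h26.QI.GoodC c D) := by
  obtain ⟨L, h1, h2⟩ := lfun hc hD e
  exact ⟨L, Run7.h26.QJ.cT e c D, h1, tamagawa hc hD e, h2⟩

theorem proved_cD {c D : GaussianInt} (hc : Run7.h26.QI.cc3 c) (h : Run7.h26.QI.GoodC c D)
    {K : Type} [Field K] [NumberField K] (e : GaussianInt ≃+* 𝓞 K) :
    Nat.card (twist e (c * D)).toAffine.Point = 4 ∧ TwoPart (twist e (c * D)) := by
  have hne : c * D ≠ 0 := mul_ne_zero (Run7.h26.QI.cc3_ne hc) h.ps.ne
  have hcard : Nat.card (twist e (c * D)).toAffine.Point = 4 := by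
    have h0 : algebraMap (𝓞 K) K (e (c * D)) ≠ 0 := by
      rw [Ne, map_eq_zero_iff _ (IsFractionRing.injective (𝓞 K) K), map_eq_zero_iff _ e.injective]
      exact hne
    exact Pool.Agent.Y699.card_pts h0 two_ne_zero (fun x y k => Run7.h26.QI.crit_pts' hc h e k)
  have hT : Pool.Agent.Y682.IsT (twist e (c * D)) 0 (-(Pool.Agent.Y715.Z.em0 e (c * D)) ^ 2) := by
    have h0 := Pool.Agent.Y715.Z.em0_ne (K := K) e hne
    exact { h1 := rfl, h2 := rfl, h3 := rfl, h4 := rfl, h6 := rfl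
            hB := neg_ne_zero.2 (pow_ne_zero 2 h0)
            hD := by
              rw [zero_pow two_ne_zero, zero_sub, neg_ne_zero]
              exact mul_ne_zero (by norm_num) (neg_ne_zero.2 (pow_ne_zero 2 h0)) }
  obtain ⟨L, h1, h2⟩ := lfun hc h.ps e
  refine ⟨hcard, Nat.finite_of_card_ne_zero (by rw [hcard]; norm_num),
    fun n x hx => Pool.Agent.Run7.h843.QJ.t_SHA' K e c D hc h _ hT n x hx, L, Run7.h26.QJ.cT e c D, h1, ?_,
    tamagawa hc h.ps e, fun σ => ⟨(h2 σ).1, fun Λ hΛ Γ _ w hw => ?_⟩⟩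
  · obtain ⟨B, hB⟩ := Pool.Agent.Y699.exists_val
    obtain ⟨σ⟩ : Nonempty (K →+* ℂ) := inferInstance
    obtain ⟨Λ, hΛ⟩ := (h2 σ).1
    have h3 := ((h2 σ).2 Λ hΛ _ B.valuation hB).2.2 h
    intro h4
    unfold quotient at h3
    rw [h4, zero_mul, zero_mul, zero_div, map_zero] at h3
    exact zero_ne_one h3
  · rw [hcard]
    exact ((h2 σ).2 Λ hΛ Γ w hw).2.2 h

/-- the curves with the same square class -/
theorem iso {x y s : GaussianInt} (hx : x ≠ 0) (hy : y ≠ 0) (h : x * y = s * s) {K : Type} [Field K]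
    [NumberField K] (e : GaussianInt ≃+* 𝓞 K) :
    ∃ C : WeierstrassCurve.VariableChange K, C • twist e x = twist e y := by
  have h0 : ∀ z : GaussianInt, z ≠ 0 → algebraMap (𝓞 K) K (e z) ≠ 0 := fun z hz => by
    rw [Ne, map_eq_zero_iff _ (IsFractionRing.injective (𝓞 K) K), map_eq_zero_iff _ e.injective]
    exact hz
  have hs : s ≠ 0 := by
    rintro rfl
    exact mul_ne_zero hx hy (by rw [h, mul_zero])
  refine ⟨⟨Units.mk0 (algebraMap (𝓞 K) K (e s) / algebraMap (𝓞 K) K (e y))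
    (div_ne_zero (h0 s hs) (h0 y hy)), 0, 0, 0⟩, ?_⟩
  refine Pool.Agent.H691.MI.vc_cv (L := K) ?_
  rw [Units.val_mk0]
  have h1 := congrArg (fun z : GaussianInt => algebraMap (𝓞 K) K (e z)) h
  simp only [map_mul] at h1
  have h2 := h0 y hy
  field_simp
  linear_combination h1

/-- **Main theorem.** `K = ℚ(i)`, `E_g : y² = x³ - g² x`, `κ = ∏_{i ≥ 0} (1 - 2^{-(2i+1)})`.
(1) `0.4194 < κ < 0.4195`, and every nonzero Gaussian integer has exactly one normal form. For all `r` and all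
`b_1, …, b_r` that are nonzero and independent modulo squares:
(2) there is `δ` such that, ordered by norm, the proportion of the class among the squarefree `g` tends to `δ`,
that of the `g` of the class with the joint criterion tends to `κ^(2^r) δ`, so if `δ > 0` the proportion of the joint
criterion in the class tends to `κ^(2^r)`; `δ ≥ 1/6` if the class is not empty, `δ ≥ 1/3` if `r = 1`, `δ = 2/3` if the `b_i`
are squarefree and `≡ 1 mod 2 + 2i`; for all `k < κ^(2^r) δ` and large `X` at least the proportion `k` of all squarefree `g` of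
norm at most `X` is `Proved`.
(3) For ALL `g` of the class, all `J`, and the normal form `c D` of `g ∏_{i ∈ J} b_i`: the curves are isomorphic,
`L(E_{cD}/K, s)` is entire and the quotient `L(E_{cD}/K, 1) √|disc K| 4² / (Ω ∏ c_v)` is integral at all valuations above `2`;
it is a unit at these if and only if the criterion for `c D` holds.
(4) If `g` is in the class and satisfies the joint criterion then the 2-part of the strong conjecture
holds for all the `2^r` curves `E_{cD}/K`: exactly four points, order and rank zero, `Ш(E_{cD}/K)[2^∞] = 0`, and the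
formula holds up to units at the valuations above `2`. -/
theorem result :
    (0.4194 < κ ∧ κ < 0.4195) ∧
    (∀ x : GaussianInt, x ≠ 0 → ∃! p : GaussianInt × GaussianInt, NormalForm x p.1 p.2) ∧
    ∀ (r : ℕ) (b : Fin r → GaussianInt), Independent b →
      (∃ δ : ℝ,
        Filter.Tendsto (fun X : ℕ => (num (InClass b) X : ℝ) / num Squarefree X) Filter.atTop (nhds δ) ∧
        Filter.Tendsto (fun X : ℕ => (num (fun g => InClass b g ∧ Joint b g) X : ℝ) / num Squarefree X)
          Filter.atTop (nhds (κ ^ 2 ^ r * δ)) ∧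
        (0 < δ → Filter.Tendsto
          (fun X : ℕ => (num (fun g => InClass b g ∧ Joint b g) X : ℝ) / num (InClass b) X)
          Filter.atTop (nhds (κ ^ 2 ^ r))) ∧
        ((∃ g : GaussianInt, InClass b g) → 1 / 6 ≤ δ) ∧ (r = 1 → 1 / 3 ≤ δ) ∧
        ((∀ i, Primary (b i) ∧ Squarefree (b i)) → δ = 2 / 3) ∧
        (∀ k : ℝ, k < κ ^ 2 ^ r * δ → ∃ X₀ : ℕ, ∀ X : ℕ, X₀ ≤ X →
          k * num Squarefree X ≤ num (fun g => Squarefree g ∧ Proved b g) X)) ∧
      (∀ g : GaussianInt, InClass b g → ∀ (K : Type) [Field K] [NumberField K]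
        (e : GaussianInt ≃+* 𝓞 K) (J : Finset (Fin r)) (c D : GaussianInt),
          NormalForm (g * ∏ i ∈ J, b i) c D →
            (∃ C : WeierstrassCurve.VariableChange K, C • twist e (g * ∏ i ∈ J, b i) = twist e (c * D)) ∧
            ValuePart (twist e (c * D)) 4 (Criterion c D)) ∧
      ∀ g : GaussianInt, InClass b g → Joint b g → Proved b g := by
  have hc : κ = Pool.Agent.Y703.CQ.c2 := rfl
  have hc2 := Pool.Agent.Y948.CQ.t_C2
  have hk1 : 0.4194 < κ := hc2.2.2.2.1
  have hcc : ∀ {r : ℕ} {b : Fin r → GaussianInt} {g : GaussianInt}, InClass b g →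
      ∀ {J : Finset (Fin r)} {c D : GaussianInt}, NormalForm (g * ∏ i ∈ J, b i) c D →
        Run7.h26.QI.cc3 c ∧ c ≠ 1 := by
    intro r b g hg J c D h
    have h1 : c ≠ 1 := by
      rintro rfl
      exact hg.2 J D h
    exact ⟨h.1.resolve_left h1, h1⟩
  have hproved : ∀ (r : ℕ) (b : Fin r → GaussianInt) (g : GaussianInt), InClass b g → Joint b g →
      Proved b g := by
    intro r b g hg hJ K _ _ e J c D h
    obtain ⟨h1, h2⟩ := hcc hg h
    exact proved_cD h1 ((crit_iff h.1 h2 ((nf_iff _ _ _).1 h).ps).1 (hJ J c D h)) e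
  refine ⟨⟨hk1, hc2.2.2.2.2⟩, fun x hx => ?_, fun r b hb => ⟨?_, ?_, hproved r b⟩⟩
  · obtain ⟨c, D, h⟩ := Pool.Agent.H691.QM.exists_rp hx
    refine ⟨(c, D), (nf_iff x c D).2 h, ?_⟩
    rintro ⟨c', D'⟩ h'
    obtain ⟨e1, e2⟩ := Pool.Agent.H691.QM.rp_uniq hx ((nf_iff x c' D').1 h') h
    rw [e1, e2]
  · have hsg : ∀ X : ℕ, num (InClass b) X =
        Run7.h26.QI.nQ (fun g => Squarefree g ∧ Pool.Agent.H691.QM.FrE b g) X := fun X => by
      rw [num_congr (fun g => class_iff g), num_eq]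
    have hsj : ∀ X : ℕ, num (fun g => InClass b g ∧ Joint b g) X =
        Run7.h26.QI.nQ (fun g => Squarefree g ∧ (Pool.Agent.H691.QM.FrE b g ∧
          Pool.Agent.H691.QM.JE b g)) X := fun X => by
      rw [num_congr (Q := fun g => Squarefree g ∧ (Pool.Agent.H691.QM.FrE b g ∧
          Pool.Agent.H691.QM.JE b g)) (fun g => ?_), num_eq]
      constructor
      · rintro ⟨h1, h2⟩
        have h3 := (class_iff g).1 h1
        exact ⟨h3.1, h3.2, (joint_iff h3.2).1 h2⟩
      · rintro ⟨h1, h2, h3⟩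
        exact ⟨(class_iff g).2 ⟨h1, h2⟩, (joint_iff h2).2 h3⟩
    have l2 : Filter.Tendsto
        (fun X : ℕ => (num (fun g => InClass b g ∧ Joint b g) X : ℝ) /
          num Squarefree X) Filter.atTop (nhds (κ ^ 2 ^ r * Pool.Agent.H691.QM.shF b)) := by
      rw [hc]
      refine (Pool.Agent.H691.QM.share_frj hb.1 hb.2).congr fun X => ?_
      rw [hsj, num_eq]
    refine ⟨Pool.Agent.H691.QM.shF b, ?_, l2, fun hs => ?_, ?_,
      fun h => Pool.Agent.H691.QM.shF_one hb.1 h,
      fun h => Pool.Agent.H691.QM.shF_prim fun i => (sp_iff _).1 (h i), fun k hk => ?_⟩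
    · refine (Pool.Agent.H691.QM.share_fr hb.1).congr fun X => ?_
      rw [hsg, num_eq]
    · rw [hc]
      refine (Pool.Agent.H691.QM.share_frm hb.1 hb.2 hs).congr fun X => ?_
      rw [hsg, hsj]
    · rintro ⟨g, hg⟩
      have h1 := (class_iff g).1 hg
      exact Pool.Agent.H691.QM.shF_nonempty hb.1 h1.1.ne_zero h1.2
    · obtain ⟨X₀, hX₀⟩ := Filter.eventually_atTop.1 ((tendsto_order.1 l2).1 k hk)
      refine ⟨X₀, fun X hX => ?_⟩
      have h7 := hX₀ X hX
      have h8 : (num (fun g => InClass b g ∧ Joint b g) X : ℝ) ≤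
          num (fun g => Squarefree g ∧ Proved b g) X := by
        have : num (fun g => InClass b g ∧ Joint b g) X ≤
            num (fun g => Squarefree g ∧ Proved b g) X :=
          num_mono (fun g hg => ⟨hg.1.1, hproved r b g hg.1 hg.2⟩) X
        exact_mod_cast this
      by_cases h9 : (num Squarefree X : ℝ) = 0
      · rw [h9, mul_zero]
        exact Nat.cast_nonneg _
      · have h10 : (0 : ℝ) < num Squarefree X := lt_of_le_of_ne (Nat.cast_nonneg _) (Ne.symm h9)
        rw [lt_div_iff₀ h10] at h7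
        linarith
  · intro g hg K _ _ e J c D h
    obtain ⟨h1, h2⟩ := hcc hg h
    have h3 := (nf_iff _ _ _).1 h
    have hne : g * ∏ i ∈ J, b i ≠ 0 :=
      mul_ne_zero hg.1.ne_zero (Finset.prod_ne_zero_iff.2 fun i _ => hb.1 i)
    refine ⟨?_, ?_⟩
    · obtain ⟨s, hs⟩ := h3.sq
      exact iso hne (mul_ne_zero h3.cx.ne h3.ps.ne) hs e
    · have h6 : Criterion c D = Run7.h26.QI.GoodC c D := propext (crit_iff h.1 h2 h3.ps)
      rw [h6]
      exact value_cD h1 h3.ps e

end Pool.Agent.Results.MP_9ab903_nt.JointTwoPartTwists
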