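import Pool.Agent.Run7.h691.GZ.Sq4
import Pool.Agent.Y699.R10
import Pool.Agent.Y699.Cls
import Pool.Agent.Y715.Z.Sel
import Pool.Agent.Y715.Z.Tpr

/-!
# The 2-part of the strong conjecture of Birch and Swinnerton-Dyer for the quartic twists
# `y² = x³ + D x` over `ℚ(i)`: exact proportions

`K` is a number field with an isomorphism `e` of the ring `ℤ[i]` of Gaussian integers with its ring
of integers (so `K = ℚ(i)`), and `E_D : y² = x³ + D x`. The class is the set of ALL squarefree
`D ≡ 1 mod 2 + 2i` with `N(D) ≡ 13 mod 16`. An elementary criterion, which says that a certain graph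
on the prime factors of `D` has an odd number of spanning trees, implies the 2-part of the strong
conjecture of Birch and Swinnerton-Dyer for `E_D / K`, with `E_D(K)` of order two and the 2-primary
part of `Ш(E_D/K)` trivial (starting file `MP_9ab903_nt.TwoPartQuarticProportion`). New here:

* the criterion holds for exactly the proportion `c = ∏_{i ≥ 0} (1 - 2^{-(2i+1)}) = 0.4194...` of the
  `D` in the class, ordered by norm;
* so the 2-part of the strong conjecture holds for at least 41.94 percent of the class, and for at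
  least 1.74 percent of all the curves `y² = x³ + D x` with a squarefree Gaussian integer `D`.

The count is project GZ (`Pool/Agent/Run7/h691/GZ`): a translation to `ℤ[i]` of project XK (over `ℤ[ω]`,
for cubic symbols, helper703 and others), with a sieve for the squarefree elements in residue classes.
-/

set_option autoImplicit false

namespace Pool.Agent.Results.MP_9ab903_nt.QuarticTwistsExactProportion

open NumberField IsDedekindDomain

/-- The curve `y² = x³ + D x`. -/
noncomputable def curve {K : Type} [Field K] [NumberField K] (e : GaussianInt ≃+* 𝓞 K)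
    (D : GaussianInt) : WeierstrassCurve K :=
  ⟨0, 0, 0, algebraMap (𝓞 K) K (e D), 0⟩

open scoped Classical in
/-- The equation `E` is minimal at every finite place `v`, and `c v` is the Tamagawa number of `E` at
`v`: the index in `E(K_v)` of the subgroup of the points of nonsingular reduction. -/
def IsTamagawa {K : Type} [Field K] [NumberField K] (E : WeierstrassCurve K)
    (c : HeightOneSpectrum (𝓞 K) → ℕ) : Prop :=
  (∀ v : HeightOneSpectrum (𝓞 K),
    (E.baseChange (v.adicCompletion K)).IsMinimal (v.adicCompletionIntegers K) ∧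
    ∃ H : AddSubgroup (E.baseChange (v.adicCompletion K)).toAffine.Point,
      (∀ P, P ∈ H ↔ Pool.Agent.Y696.NonsingRed Valued.v (E.baseChange (v.adicCompletion K)) P) ∧
      H.index = c v) ∧
  {v | c v ≠ 1}.Finite

/-- `Λ` is the lattice of periods of the differential `dx / (2y + a₁x + a₃)` of the curve `E`, embedded
in the complex numbers by `σ`. -/
def IsPeriodLattice {K : Type} [Field K] (E : WeierstrassCurve K) (σ : K →+* ℂ)
    (Λ : PeriodPair) : Prop :=
  Λ.g₂ = σ E.c₄ / 12 ∧ Λ.g₃ = σ E.c₆ / 216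

/-- Twice the area of a fundamental parallelogram of the lattice. -/
noncomputable def period (Λ : PeriodPair) : ℝ := 2 * |((starRingEnd ℂ) Λ.ω₁ * Λ.ω₂).im|

/-- The conjecture of Birch and Swinnerton-Dyer, the formula up to units at the valuations above `2`,
for a curve `E` over an imaginary quadratic field `K` with `E(K)` finite and the 2-primary part
of `Ш(E/K)` trivial:
`L(E/K, s)` is entire, `L(E/K, 1) ≠ 0`, and `L(E/K, 1) √|disc K| #E(K)² / (Ω ∏ c_v)` is a unit
at every valuation `w` of the field of complex numbers with `w 2 < 1`. -/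
def TwoPart {K : Type} [Field K] [NumberField K] (E : WeierstrassCurve K) : Prop :=
  Finite E.toAffine.Point ∧
  (∀ (n : ℕ) (x : Pool.Agent.TH841.NF.D.Sha E), 2 ^ n • x = 0 → x = 0) ∧
  ∃ (L : ℂ → ℂ) (c : HeightOneSpectrum (𝓞 K) → ℕ),
    Differentiable ℂ L ∧
    (∀ s : ℂ, 3 / 2 < s.re →
      LSeriesSummable ((fun n : ℤ => (n : ℂ)) ∘ E.LFunction) s ∧ L s = E.LSeries s) ∧
    L 1 ≠ 0 ∧
    IsTamagawa E c ∧
    ∀ σ : K →+* ℂ, (∃ Λ : PeriodPair, IsPeriodLattice E σ Λ) ∧
      ∀ Λ : PeriodPair, IsPeriodLattice E σ Λ →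
        ∀ (Γ : Type) [LinearOrderedCommGroupWithZero Γ] (w : Valuation ℂ Γ), w 2 < 1 →
          w (L 1 * (Real.sqrt |(discr K : ℝ)| : ℝ) * (Nat.card E.toAffine.Point : ℂ) ^ 2 /
            ((period Λ : ℂ) * ((∏ᶠ v, c v : ℕ) : ℂ))) = 1

/-- For `K = ℚ(i)` (every number field `K` with an isomorphism `e` of `ℤ[i]` with its ring of
integers), the curve `E_D : y² = x³ + D x` over `K` has exactly two points over `K` and satisfies
`TwoPart`. -/
def Proved (D : GaussianInt) : Prop :=
  ∀ (K : Type) [Field K] [NumberField K] (e : GaussianInt ≃+* 𝓞 K),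
    Nat.card (curve e D).toAffine.Point = 2 ∧ TwoPart (curve e D)

/-- `D ≡ 1 mod 2 + 2i`. -/
def Primary (D : GaussianInt) : Prop := (⟨2, 2⟩ : GaussianInt) ∣ D - 1

/-- `D ≡ 1 mod 2 + 2i` is squarefree and its norm is `13` modulo `16`. -/
def InClass (D : GaussianInt) : Prop := Primary D ∧ Squarefree D ∧ D.norm % 16 = 13

/-- `a` is a square modulo each prime factor of `d`. -/
def SquareMod (d a : GaussianInt) : Prop :=
  ∀ π : GaussianInt, Prime π → π ∣ d → ∃ b, π ∣ a - b ^ 2

/-- The criterion: for every factorisation `D = d d'` with `d`, `d'` primary and different from `1`, `d'` is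
not a square modulo one of the prime factors of `d`, or `d` is not a square modulo one of the prime
factors of `d'`. -/
def Criterion (D : GaussianInt) : Prop :=
  ∀ d d' : GaussianInt, Primary d → Primary d' → D = d * d' →
    SquareMod d d' → SquareMod d' d → d = 1 ∨ d' = 1

/-- The number of the Gaussian integers of norm at most `X` with the property `P`. -/
noncomputable def num (P : GaussianInt → Prop) (X : ℕ) : ℕ := {D : GaussianInt | D.norm ≤ X ∧ P D}.ncard

/-- The infinite product `(1 - 1/2) (1 - 1/8) (1 - 1/32) ⋯`. -/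
noncomputable def c : ℝ := ∏' i : ℕ, (1 - (1 / 2 : ℝ) ^ (2 * i + 1))

theorem num_finite (P : GaussianInt → Prop) (X : ℕ) :
    {D : GaussianInt | D.norm ≤ X ∧ P D}.Finite := by
  refine (Pool.Agent.Y699.fin_norm_le X).subset ?_
  rintro D ⟨h, -⟩
  have h0 := GaussianInt.norm_nonneg D
  show D.norm.natAbs ≤ X
  omega

/-- The criterion implies the 2-part of the conjecture. -/
theorem curve_good {D : GaussianInt} (hg : Pool.Agent.Y699.Good4 D) : Proved D := by
  intro K _ _ e
  have hc2 := Pool.Agent.Y699.comp_mod hg.ps.prm hg.nm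
  have hc : Nat.card (curve e D).toAffine.Point = 2 :=
    Pool.Agent.Y699.card_pts4 (Pool.Agent.Y699.neg_not_sq hg e) two_ne_zero
      (fun x y h => Pool.Agent.Y699.crit_pts4 hg e h)
  have hD0 : algebraMap (𝓞 K) K (e D) ≠ 0 := Pool.Agent.Y715.Z.em0_ne e hg.ps.ne
  have hT : Pool.Agent.Y682.IsT (curve e D) 0 (Pool.Agent.Y715.Z.em0 e D) :=
    { h1 := rfl, h2 := rfl, h3 := rfl, h4 := rfl, h6 := rfl, hB := hD0
      hD := by
        rw [zero_pow two_ne_zero, zero_sub, neg_ne_zero]
        exact mul_ne_zero (by norm_num) hD0 }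
  have hP := Pool.Agent.Y715.Z.two_of_good hg
  have hp := Pool.Agent.Y699.fam_PF hg.ps.ne
  obtain ⟨hcf, hcp⟩ := Pool.Agent.Y715.Z.cT_prod e hg.ps
  refine ⟨hc, Nat.finite_of_card_ne_zero (by rw [hc]; norm_num),
    fun n x hx => Pool.Agent.Y715.Z.sha_pow e hg hT n x hx,
    Pool.Agent.Y699.LG (Pool.Agent.Y699.XX4 hp Finset.univ Pool.Agent.Y699.on1),
    Pool.Agent.Y715.Z.cT e D,
    Pool.Agent.Y699.LG_diff (Pool.Agent.Y699.XH hp (Pool.Agent.Y699.sum_wq hg)),
    fun s hs => Pool.Agent.Y715.Z.lser e hg hs,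
    Pool.Agent.Y699.LG_one (Pool.Agent.Y699.LH_ne4 hp (Pool.Agent.Y699.sum_wq hg)
      (Pool.Agent.Y699.ker_of_good hg.good)),
    ⟨fun v => ?_, hcf⟩, fun σ => ?_⟩
  · have hbc : (curve e D).baseChange (v.adicCompletion K) = Pool.Agent.Y715.Z.q4
        (algebraMap K (v.adicCompletion K) (Pool.Agent.Y715.Z.em0 e D)) :=
      Pool.Agent.Y715.Z.q4_map _ _
    rw [hbc]
    exact ⟨Pool.Agent.Y715.Z.min4 e hg.ps.sqf hc2.1 hc2.2 hP v,
      Pool.Agent.Y715.Z.tam e hg.ps.sqf hc2.1 hc2.2 hP v⟩
  · have h4 : σ (curve e D).c₄ / 12 = -4 * σ (Pool.Agent.Y715.Z.em0 e D) := by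
      have h5 : (curve e D).c₄ = -48 * Pool.Agent.Y715.Z.em0 e D := Pool.Agent.Y715.Z.q4_c₄ _
      rw [h5, map_mul, map_neg, map_ofNat]
      ring
    have h6 : σ (curve e D).c₆ / 216 = 0 := by
      have h7 : (curve e D).c₆ = 0 := by
        simp only [curve, WeierstrassCurve.c₆, WeierstrassCurve.b₂, WeierstrassCurve.b₄,
          WeierstrassCurve.b₆]
        ring
      rw [h7, map_zero, zero_div]
    have hδ := Pool.Agent.Y715.Z.norm_emb e σ D
    have hσ0 : σ (Pool.Agent.Y715.Z.em0 e D) ≠ 0 := by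
      rw [Ne, map_eq_zero]; exact hD0
    refine ⟨?_, fun Λ hΛ Γ _ w hw => ?_⟩
    · obtain ⟨Λ, h8, h9⟩ := Pool.Agent.Y715.Z.per_ex hσ0
      exact ⟨Λ, by rw [h4]; exact h8, by rw [h6]; exact h9⟩
    · have h10 := Pool.Agent.Y715.Z.val_quot hg hδ (hΛ.1.trans h4) (hΛ.2.trans h6) w hw
      rw [Pool.Agent.Y715.Z.sqrt_discr e, hc, hcp]
      refine Eq.trans ?_ h10
      unfold period
      congr 1
      push_cast
      norm_num

theorem primary_iff (D : GaussianInt) : Primary D ↔ Pool.Agent.H304R2.EC.A1.prim D :=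
  (Pool.Agent.W164.RC.prim_iff_dvd D).symm

theorem square_iff {d d' D : GaussianInt} (hD : Squarefree D) (ho : D.norm % 2 = 1) (he : D = d * d')
    : SquareMod d d' ↔ ∀ π ∈ Pool.Agent.Y699.PD d, Pool.Agent.Y699.qr π d' = 1 := by
  have hD0 : D ≠ 0 := hD.ne_zero
  have hd0 : d ≠ 0 := by
    rintro rfl
    exact hD0 (by rw [he, zero_mul])
  have hnd : ∀ π : GaussianInt, Prime π → π ∣ d → ¬ π ∣ d' := by
    intro π hπ h1 h2
    exact hπ.not_isUnit (hD π (by rw [he]; exact mul_dvd_mul h1 h2))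
  constructor
  · intro h π hπ
    rw [Pool.Agent.Y699.mem_PD hd0] at hπ
    have h1 := hnd π hπ.1.pr hπ.2
    have h2 := h π hπ.1.pr hπ.2
    unfold Pool.Agent.Y699.qr
    rw [if_neg h1, if_pos h2]
  · intro h π hπ hπd
    have hodd : π.norm % 2 = 1 := Pool.Agent.Y699.odd_of_dvd (hπd.trans ⟨d', he⟩) ho
    obtain ⟨ρ, hρ, hass⟩ := Pool.Agent.Y699.exists_PP hπ hodd
    have hρd : ρ ∣ d := hass.dvd.trans hπd
    have h1 := h ρ ((Pool.Agent.Y699.mem_PD hd0).2 ⟨hρ, hρd⟩)
    unfold Pool.Agent.Y699.qr at h1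
    rw [if_neg (hnd ρ hρ.pr hρd)] at h1
    by_contra hc
    rw [if_neg (fun ⟨b, hb⟩ => hc ⟨b, hass.symm.dvd.trans hb⟩)] at h1
    exact absurd h1 (by norm_num)

theorem class_iff (D : GaussianInt) : InClass D ↔ Pool.Agent.H691.GZ.ClsE {13} D := by
  have h0 : ((H385.nrm D : ℕ) : ℤ) = D.norm := GaussianInt.abs_natCast_norm D
  constructor
  · rintro ⟨h1, h2, h3⟩
    refine ⟨⟨(primary_iff D).1 h1, h2⟩, ?_⟩
    rw [Finset.mem_singleton]
    rw [← h0] at h3
    omega
  · rintro ⟨h1, h2⟩
    refine ⟨(primary_iff D).2 h1.prm, h1.sqf, ?_⟩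
    rw [Finset.mem_singleton] at h2
    rw [← h0]
    omega

theorem good_iff (D : GaussianInt) :
    (InClass D ∧ Criterion D) ↔ Pool.Agent.H691.GZ.GoodE {13} D := by
  constructor
  · rintro ⟨h1, h2⟩
    have h3 := (class_iff D).1 h1
    have ho : D.norm % 2 = 1 := by have := h1.2.2; omega
    refine ⟨h3, fun d d' hd hd' he k1 k2 => ?_⟩
    exact h2 d d' ((primary_iff d).2 hd) ((primary_iff d').2 hd') he
      ((square_iff h1.2.1 ho he).2 k1) ((square_iff h1.2.1 ho (by rw [he, mul_comm])).2 k2)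
  · intro h
    have h1 := (class_iff D).2 h.cl
    have ho : D.norm % 2 = 1 := by have := h1.2.2; omega
    refine ⟨h1, fun d d' hd hd' he k1 k2 => ?_⟩
    exact h.ker d d' ((primary_iff d).1 hd) ((primary_iff d').1 hd') he
      ((square_iff h1.2.1 ho he).1 k1) ((square_iff h1.2.1 ho (by rw [he, mul_comm])).1 k2)

theorem norm_iff (D : GaussianInt) (X : ℕ) : D.norm ≤ X ↔ H385.nrm D ≤ X := by
  have h0 : ((H385.nrm D : ℕ) : ℤ) = D.norm := GaussianInt.abs_natCast_norm D
  omega

theorem proved_of_good {D : GaussianInt} (h : Pool.Agent.H691.GZ.GoodE {13} D) : Proved D := by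
  have h1 := (class_iff D).2 h.cl
  exact curve_good ⟨h.cl.ps, h1.2.2, h.ker⟩

open Classical in
/-- **Main theorem.** `K = ℚ(i)`, `E_D : y² = x³ + D x`, `c = ∏_{i ≥ 0} (1 - 2^{-(2i+1)})`.
(1) `0.4194 < c < 0.4195`.
(2) Exactly the proportion `c` of the squarefree Gaussian integers `D ≡ 1 mod 2 + 2i` with
`N(D) ≡ 13 mod 16`, ordered by norm, satisfies the criterion.
(3) If `D` in this class satisfies the criterion then `E_D(K)` has exactly two elements, the 2-primary
part of `Ш(E_D/K)` is trivial, `L(E_D/K, s)` is entire with `L(E_D/K, 1) ≠ 0`, and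
`L(E_D/K, 1) √|disc K| #E_D(K)² / (Ω ∏ c_v)` is a unit at every valuation above `2`.
(4) For large `X` at least 41.94 percent of the `D` in the class with norm at most `X` have this
property.
(5) For large `X` at least 1.74 percent of ALL squarefree Gaussian integers `D` of norm at most `X`
have this property. -/
theorem result :
    (0.4194 < c ∧ c < 0.4195) ∧
    Filter.Tendsto (fun X : ℕ => (num (fun D => InClass D ∧ Criterion D) X : ℝ) / num InClass X)
      Filter.atTop (nhds c) ∧
    (∀ D : GaussianInt, InClass D → Criterion D → Proved D) ∧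
    (∃ X₀ : ℕ, ∀ X : ℕ, X₀ ≤ X →
      (0.4194 : ℝ) * num InClass X ≤ num (fun D => InClass D ∧ Proved D) X) ∧
    (∃ X₀ : ℕ, ∀ X : ℕ, X₀ ≤ X →
      (0.0174 : ℝ) * num Squarefree X ≤ num (fun D => Squarefree D ∧ Proved D) X) := by
  have hc : c = Pool.Agent.Y703.CQ.c2 := rfl
  have hc2 := Pool.Agent.Y948.CQ.t_C2
  have hset1 : ∀ X : ℕ, {D : GaussianInt | D.norm ≤ X ∧ (InClass D ∧ Criterion D)} =
      {D : GaussianInt | H385.nrm D ≤ X ∧ Pool.Agent.H691.GZ.GoodE {13} D} := by
    intro X
    ext D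
    exact and_congr (norm_iff D X) (good_iff D)
  have hset2 : ∀ X : ℕ, {D : GaussianInt | D.norm ≤ X ∧ InClass D} =
      {D : GaussianInt | H385.nrm D ≤ X ∧ Pool.Agent.H691.GZ.ClsE {13} D} := by
    intro X
    ext D
    exact and_congr (norm_iff D X) (class_iff D)
  have hlim : Filter.Tendsto (fun X : ℕ => (num (fun D => InClass D ∧ Criterion D) X : ℝ) /
      num InClass X) Filter.atTop (nhds c) := by
    rw [hc]
    refine (Pool.Agent.H691.GZ.t_DEN {13} Pool.Agent.H691.GZ.low13).congr fun X => ?_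
    unfold num
    rw [hset1, hset2]
  have hpr : ∀ D : GaussianInt, InClass D → Criterion D → Proved D := fun D h1 h2 =>
    proved_of_good ((good_iff D).1 ⟨h1, h2⟩)
  refine ⟨⟨hc2.2.2.2.1, hc2.2.2.2.2⟩, hlim, hpr, ?_, ?_⟩
  · have h1 := (tendsto_order.1 hlim).1 0.4194 hc2.2.2.2.1
    obtain ⟨X₀, hX₀⟩ := Filter.eventually_atTop.1 h1
    refine ⟨X₀, fun X hX => ?_⟩
    have h2 := hX₀ X hX
    have h3 : (num (fun D => InClass D ∧ Criterion D) X : ℝ) ≤
        num (fun D => InClass D ∧ Proved D) X := by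
      have : num (fun D => InClass D ∧ Criterion D) X ≤ num (fun D => InClass D ∧ Proved D) X := by
        refine Set.ncard_le_ncard ?_ (num_finite _ X)
        rintro D ⟨k1, k2, k3⟩
        exact ⟨k1, k2, hpr D k2 k3⟩
      exact_mod_cast this
    by_cases h4 : (num InClass X : ℝ) = 0
    · rw [h4, mul_zero]
      exact Nat.cast_nonneg _
    · have h5 : (0 : ℝ) < num InClass X := lt_of_le_of_ne (Nat.cast_nonneg _) (Ne.symm h4)
      rw [lt_div_iff₀ h5] at h2
      linarith
  · obtain ⟨X₀, hX₀⟩ := Pool.Agent.H691.GZ.SQ.share13 (κ := 0.0174) (by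
      have := hc2.2.2.2.1
      rw [lt_div_iff₀ (by norm_num)]
      norm_num at this ⊢
      linarith)
    refine ⟨X₀, fun X hX => ?_⟩
    have h1 := hX₀ X hX
    have h2 : (num Squarefree X : ℝ) = ((Pool.Agent.H691.GZ.SQ.TT X).card : ℝ) := by
      unfold num
      rw [← Set.ncard_coe_finset]
      congr 2
      ext D
      unfold Pool.Agent.H691.GZ.SQ.TT
      rw [Finset.mem_coe, Finset.mem_filter, Pool.Agent.Y699.mem_ZB]
      exact and_congr_left fun _ => norm_iff D X
    rw [h2]
    refine h1.trans ?_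
    have h3 : {D : GaussianInt | H385.nrm D ≤ X ∧ Pool.Agent.H691.GZ.GoodE {13} D}.ncard ≤
        num (fun D => Squarefree D ∧ Proved D) X := by
      refine Set.ncard_le_ncard ?_ (num_finite _ X)
      rintro D ⟨k1, k2⟩
      exact ⟨(norm_iff D X).2 k1, k2.cl.ps.sqf, proved_of_good k2⟩
    exact_mod_cast h3

end Pool.Agent.Results.MP_9ab903_nt.QuarticTwistsExactProportion
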